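import Pool.Agent.Work.MP_0f7328_co.OC.LkM
import Pool.Agent.Work.MP_0f7328_co.TV.Defs

/-!
Two disjoint edges outside of `I` in a solid brick: the linking type that joins the ends of the
same edge is empty.

Proof. Every summand of `NN H I x y z w` is zero: suppose `f ∈ Mt x z`, `g ∈ Mt y w` and
`Lk f g x y`. By `lk_main`, `z` is linked to `w` and not to `x`. Let `K = comp f g x`, a closed set
with `x, y ∈ K`, `z, w ∉ K`. `K.card` is odd: `f` maps `I ∩ K` bijectively onto `(K \ I) \ {x}`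
(`mt_surj`, closedness), so `K.card = 2 * (I ∩ K).card + 1`. Rotation of `K`: `i ↦ f i` for
`i ∈ I ∩ K`, `y ↦ x`, and `b ↦ i` with `g i = b` for the other `b ∈ K \ I` (`mt_surj` for `g`;
`b ≠ w` since `w ∉ K`). It maps `I ∩ K` onto `(K \ I) \ {x}`, `y` to `x` and `(K \ I) \ {y}` onto
`I ∩ K`, so it is injective on `K`; it goes along edges (`y` and `x` are adjacent). Rotation of `Kᶜ`:
`i ↦ f i`, `w ↦ z`, `b ↦ i` with `g i = b`, in the same way. So `Split H`, a contradiction to
`h.nosplit`. (Write a private lemma for a closed set `K` with `x, y ∈ K`, `z, w ∉ K`, `H.Adj x y`, and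
apply it to `K` and to `Kᶜ`.)
-/

set_option autoImplicit false
set_option linter.unusedSectionVars false

namespace Pool.Agent.Work.MP_0f7328_co.OC

open Finset TV MvPolynomial

variable {V : Type} [Fintype V] [DecidableEq V] {H : SimpleGraph V} {I : Finset V}

private theorem nz_key (hI : Big H I) {x y z w : V} (hx : x ∉ I) (hy : y ∉ I) (hz : z ∉ I)
    (hw : w ∉ I) (hxz : x ≠ z) (hyw : y ≠ w) (h1 : H.Adj x y) {f g : Ix I → V}
    (hf : IsMt H I x z f) (hg : IsMt H I y w g) {K : Finset V} (hK : Cls f g K) (hxK : x ∈ K)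
    (hyK : y ∈ K) (hzK : z ∉ K) (hwK : w ∉ K) : Odd K.card ∧ Rot H K := by
  classical
  constructor
  · have h2 : (K.filter (· ∈ I)).card = ((K.filter (· ∉ I)).erase x).card := by
      refine Finset.card_bij (fun a ha => f ⟨a, (mem_filter.1 ha).2⟩) ?_ ?_ ?_
      · intro a ha
        obtain ⟨h3, h4⟩ := mem_filter.1 ha
        refine mem_erase.2 ⟨(hf.2 _).2.1, mem_filter.2 ⟨?_, mt_notMem hI hf _⟩⟩
        exact (hK ⟨a, h4⟩).1.1 h3
      · intro a ha b hb hab
        exact congrArg Subtype.val (hf.1 hab)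
      · intro b hb
        obtain ⟨h3, h4⟩ := mem_erase.1 hb
        obtain ⟨h5, h6⟩ := mem_filter.1 h4
        obtain ⟨i, hi⟩ := mt_surj hI hx hz hxz hf h6 h3 (fun h => hzK (h ▸ h5))
        refine ⟨i.1, mem_filter.2 ⟨(hK i).1.2 (by rw [hi]; exact h5), i.2⟩, hi⟩
    have h3 : x ∈ K.filter (· ∉ I) := mem_filter.2 ⟨hxK, hx⟩
    have h4 := Finset.card_erase_add_one h3
    have h5 := Finset.card_filter_add_card_filter_not (s := K) (· ∈ I)
    exact ⟨(K.filter (· ∈ I)).card, by omega⟩
  · have hex : ∀ b, b ∈ K → b ∉ I → b ≠ y → ∃ i, g i = b := fun b hb hbI hby =>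
      mt_surj hI hy hw hyw hg hbI hby (fun h => hwK (h ▸ hb))
    obtain ⟨F, hF⟩ : ∃ F : V → V, (∀ i : Ix I, F i.1 = f i) ∧ F y = x ∧
        ∀ b, b ∈ K → b ∉ I → b ≠ y → ∃ i : Ix I, g i = b ∧ F b = i.1 := by
      refine ⟨fun v => if h : v ∈ I then f ⟨v, h⟩ else if v = y then x else
        if h : ∃ i, g i = v then h.choose.1 else v, ?_, ?_, ?_⟩
      · intro i
        simp only [dif_pos i.2]
      · simp only [dif_neg hy, if_pos]
      · intro b hb hbI hby
        have h := hex b hb hbI hby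
        exact ⟨h.choose, h.choose_spec, by simp only [dif_neg hbI, if_neg hby, dif_pos h]⟩
    obtain ⟨hF1, hF2, hF3⟩ := hF
    refine ⟨F, ?_, ?_⟩
    · intro a ha b hb hab
      rw [mem_coe] at ha hb
      by_cases haI : a ∈ I
      · have h2 := hF1 ⟨a, haI⟩
        by_cases hbI : b ∈ I
        · have h3 := hF1 ⟨b, hbI⟩
          exact congrArg Subtype.val (hf.1 (h2.symm.trans (hab.trans h3)))
        · by_cases hby : b = y
          · subst hby
            exact absurd (h2.symm.trans (hab.trans hF2)) (hf.2 _).2.1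
          · obtain ⟨i, h3, h4⟩ := hF3 b hb hbI hby
            have h5 : f ⟨a, haI⟩ = i.1 := h2.symm.trans (hab.trans h4)
            exact absurd (h5 ▸ i.2) (mt_notMem hI hf _)
      · by_cases hay : a = y
        · subst hay
          by_cases hbI : b ∈ I
          · have h3 := hF1 ⟨b, hbI⟩
            exact absurd (h3.symm.trans (hab.symm.trans hF2)) (hf.2 _).2.1
          · by_cases hby : b = a
            · exact hby.symm
            · obtain ⟨i, h3, h4⟩ := hF3 b hb hbI hby
              have h5 : x = i.1 := hF2.symm.trans (hab.trans h4)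
              exact absurd (h5 ▸ i.2) hx
        · obtain ⟨j, h6, h7⟩ := hF3 a ha haI hay
          by_cases hbI : b ∈ I
          · have h3 := hF1 ⟨b, hbI⟩
            have h5 : f ⟨b, hbI⟩ = j.1 := h3.symm.trans (hab.symm.trans h7)
            exact absurd (h5 ▸ j.2) (mt_notMem hI hf _)
          · by_cases hby : b = y
            · subst hby
              have h5 : x = j.1 := hF2.symm.trans (hab.symm.trans h7)
              exact absurd (h5 ▸ j.2) hx
            · obtain ⟨i, h3, h4⟩ := hF3 b hb hbI hby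
              have h5 : j = i := Subtype.ext (h7.symm.trans (hab.trans h4))
              rw [← h6, ← h3, h5]
    · intro v hv
      by_cases hvI : v ∈ I
      · rw [hF1 ⟨v, hvI⟩]
        exact ⟨(hK ⟨v, hvI⟩).1.1 hv, (hf.2 ⟨v, hvI⟩).1⟩
      · by_cases hvy : v = y
        · subst hvy
          rw [hF2]
          exact ⟨hxK, h1.symm⟩
        · obtain ⟨i, h3, h4⟩ := hF3 v hv hvI hvy
          rw [h4]
          refine ⟨(hK i).2.2 (by rw [h3]; exact hv), ?_⟩
          rw [← h3]
          exact (hg.2 i).1.symm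

theorem nn_zero (h : SB H) (hI : Big H I) {x y z w : V} (hx : x ∉ I) (hy : y ∉ I) (hz : z ∉ I)
    (hw : w ∉ I) (hxz : x ≠ z) (hxw : x ≠ w) (hyz : y ≠ z) (hyw : y ≠ w)
    (h1 : H.Adj x y) (h2 : H.Adj z w) : NN H I x y z w = 0 := by
  have hxy := h1.ne
  have hzw := h2.ne
  unfold NN
  refine Finset.sum_eq_zero fun f hf => Finset.sum_eq_zero fun g hg => ?_
  rw [mem_Mt] at hf hg
  refine if_neg fun hl => ?_
  obtain ⟨h3, h4⟩ := lk_main hI hx hy hz hw hxy hxz hxw hyz hyw hzw hf hg
  have h5 : Lk f g z w := by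
    rcases h4 with h4 | h4
    · exact h4.2.1
    · exact absurd hl h4.2.2
  have h6 : ¬ Lk f g x w := fun h6 => h3 (h6.trans h5.symm)
  have hK := cls_comp f g x
  have k1 : x ∈ comp f g x := mem_comp.2 (Lk.refl _ _ _)
  have k2 : y ∈ comp f g x := mem_comp.2 hl
  have k3 : z ∉ comp f g x := fun h => h3 (mem_comp.1 h)
  have k4 : w ∉ comp f g x := fun h => h6 (mem_comp.1 h)
  have hf' : IsMt H I z x f := by
    rw [← mem_Mt, Mt_comm, mem_Mt]
    exact hf
  have hg' : IsMt H I w y g := by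
    rw [← mem_Mt, Mt_comm, mem_Mt]
    exact hg
  have e1 := nz_key hI hx hy hz hw hxz hyw h1 hf hg hK k1 k2 k3 k4
  have e2 := nz_key hI hz hw hx hy hxz.symm hyw.symm h2 hf' hg' hK.compl
    (mem_compl.2 k3) (mem_compl.2 k4) (fun h => (mem_compl.1 h) k1) (fun h => (mem_compl.1 h) k2)
  exact h.nosplit ⟨comp f g x, e1.1, e1.2, e2.2⟩

end Pool.Agent.Work.MP_0f7328_co.OC
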