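import Pool.Agent.Work.MP_0f7328_co.OC.Bij

/-!
The generating polynomial of the matchings is not zero.

Proof. Take `f₀ ∈ Mt H I x y` (`mt_nonempty`). The coefficient of `pp H I x y` at `mon f₀` is the
number of `f ∈ Mt H I x y` with `mon f = mon f₀` (`coeff_sum`, `coeff_monomial`), which is at least
one, so it is not zero in `ℤ`.
-/

set_option autoImplicit false
set_option linter.unusedSectionVars false

namespace Pool.Agent.Work.MP_0f7328_co.OC

open Finset TV MvPolynomial

variable {V : Type} [Fintype V] [DecidableEq V] {H : SimpleGraph V} {I : Finset V}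

theorem pp_ne (h : SB H) (hI : Big H I) {x y : V} (hx : x ∉ I) (hy : y ∉ I) (hxy : x ≠ y) :
    pp H I x y ≠ 0 := by
  classical
  obtain ⟨f₀, hf₀⟩ := mt_nonempty h hI hx hy hxy
  intro h0
  have h1 : coeff (mon f₀) (pp H I x y) = 0 := by rw [h0, coeff_zero]
  unfold pp at h1
  rw [coeff_sum] at h1
  simp only [coeff_monomial] at h1
  have h2 : (0 : ℤ) < ∑ f ∈ Mt H I x y, if mon f = mon f₀ then (1 : ℤ) else 0 := by
    refine Finset.sum_pos' (fun f _ => ?_) ⟨f₀, hf₀, ?_⟩
    · split_ifs <;> norm_num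
    · rw [if_pos rfl]
      norm_num
  exact absurd h1 h2.ne'

end Pool.Agent.Work.MP_0f7328_co.OC
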