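import Pool.Agent.Work.MP_0f7328_co.OC.NAlg
import Pool.Agent.Work.MP_0f7328_co.OC.PNe
import Pool.Agent.Work.MP_0f7328_co.OC.NZero

/-!
Along a walk that avoids `o, u, v` the difference of the two polynomials changes its sign.

Proof. Write `c z = NN o u v z - NN o v u z` and `q z = pp o z`. For an edge `z z'` outside of `I`
that avoids `o, u, v`: `five` for `o u v z z'`, in which `NN o v z z' = 0` and `NN o u z z' = 0` by
`nn_zero`, gives `NN o u v z' * q z = NN o v u z * q z'`; with `u, v` exchanged (`five` for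
`o v u z z'`), `NN o v u z' * q z = NN o u v z * q z'`. So `c z' * q z = - c z * q z'`.
Now induction on the walk: for the walk `z z' ... w` with tail of length `n`,
`c w * q z' = (-1) ^ n * c z' * q w`, multiply by `q z` and use the edge:
`c w * q z' * q z = (-1) ^ n * (- c z * q z') * q w`; cancel `q z' ≠ 0` (`pp_ne`,
`mul_right_cancel₀`; `MvPolynomial _ ℤ` is a domain).
(All vertices of the walk are outside of `I` and different from `o`, except possibly when the walk
has length 0; then the statement is `c z * q z = c z * q z`.)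
-/

set_option autoImplicit false
set_option linter.unusedSectionVars false

namespace Pool.Agent.Work.MP_0f7328_co.OC

open Finset TV MvPolynomial

variable {V : Type} [Fintype V] [DecidableEq V] {H : SimpleGraph V} {I : Finset V}

private theorem alt_edge (h : SB H) (hI : Big H I) {o u v : V} (ho : o ∉ I) (hu : u ∉ I) (hv : v ∉ I)
    (hou : H.Adj o u) (hov : H.Adj o v) (huv : u ≠ v) {z w : V}
    (hzw : (minus H (insert o I)).Adj z w) (hzu : u ≠ z) (hzv : v ≠ z) (hwu : u ≠ w)
    (hwv : v ≠ w) :
    (NN H I o u v w - NN H I o v u w) * pp H I o z =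
      - ((NN H I o u v z - NN H I o v u z) * pp H I o w) := by
  obtain ⟨h1, h2, h3⟩ := hzw
  rw [mem_insert, not_or] at h2 h3
  obtain ⟨hoz, hz⟩ := h2
  obtain ⟨how, hw⟩ := h3
  have e1 := five hI ho hu hv hz hw hou.ne hov.ne (Ne.symm hoz) (Ne.symm how) huv hzu hwu hzv hwv
    h1.ne
  have e2 := five hI ho hv hu hz hw hov.ne hou.ne (Ne.symm hoz) (Ne.symm how) huv.symm hzv hwv
    hzu hwu h1.ne
  have e3 := nn_zero h hI ho hv hz hw (Ne.symm hoz) (Ne.symm how) hzv hwv hov h1
  have e4 := nn_zero h hI ho hu hz hw (Ne.symm hoz) (Ne.symm how) hzu hwu hou h1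
  rw [e3, e4] at e1 e2
  linear_combination e1 - e2

theorem alt_walk (h : SB H) (hI : Big H I) {o u v : V} (ho : o ∉ I) (hu : u ∉ I) (hv : v ∉ I)
    (hou : H.Adj o u) (hov : H.Adj o v) (huv : u ≠ v) {z w : V}
    (p : (minus H (insert o I)).Walk z w) (hpu : u ∉ p.support) (hpv : v ∉ p.support) :
    (NN H I o u v w - NN H I o v u w) * pp H I o z =
      (-1) ^ p.length * (NN H I o u v z - NN H I o v u z) * pp H I o w := by
  induction p with
  | nil => simp
  | @cons a b c hab p ih =>
    rw [SimpleGraph.Walk.support_cons, List.mem_cons, not_or] at hpu hpv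
    have h1 := ih hpu.2 hpv.2
    have hub : u ≠ b := fun e => hpu.2 (e ▸ p.start_mem_support)
    have hvb : v ≠ b := fun e => hpv.2 (e ▸ p.start_mem_support)
    have h2 := alt_edge h hI ho hu hv hou hov huv hab hpu.1 hpv.1 hub hvb
    have hb := hab.2.2
    rw [mem_insert, not_or] at hb
    have h3 := pp_ne h hI ho hb.2 (Ne.symm hb.1)
    refine mul_right_cancel₀ h3 ?_
    rw [SimpleGraph.Walk.length_cons, pow_succ]
    linear_combination (pp H I o a) * h1 + (-1) ^ p.length * pp H I o c * h2

end Pool.Agent.Work.MP_0f7328_co.OC
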