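import Pool.Agent.Work.MP_0f7328_co.OC.Defs

/-!
A matching of `I` that misses two vertices outside of `I` meets all the other vertices outside of
`I`; and such matchings exist.

Proof of `mt_surj`: `f` is injective from `I` to `Iᶜ \ {x, y}` (`f i` is adjacent to `i ∈ I`, so it
is not in the stable set `I`), and both sets have `I.card` elements (`2 * I.card + 2 = |V|`).
Proof of `mt_nonempty`: take the perfect matching `f` of `{x, y}ᶜ` (`h.bic x y hxy`). As
`nb H I = Iᶜ` (`big_nb`) has `I.card + 2` elements (`big_card`), `swp` applies: `f` maps `I` into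
`nb H I`, not to `x`, `y`. Restrict `f` to `I`; it is injective since it is an involution off
`{x, y}`.
-/

set_option autoImplicit false
set_option linter.unusedSectionVars false

namespace Pool.Agent.Work.MP_0f7328_co.OC

open Finset TV MvPolynomial

variable {V : Type} [Fintype V] [DecidableEq V] {H : SimpleGraph V} {I : Finset V}

theorem mt_notMem (hI : Big H I) {x y : V} {f : Ix I → V} (hf : IsMt H I x y f) (i : Ix I) :
    f i ∉ I := fun h => hI.1 i.1 i.2 (f i) h (hf.2 i).1

theorem mt_surj (hI : Big H I) {x y : V} (hx : x ∉ I) (hy : y ∉ I) (hxy : x ≠ y) {f : Ix I → V}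
    (hf : IsMt H I x y f) {b : V} (hb : b ∉ I) (hbx : b ≠ x) (hby : b ≠ y) : ∃ i, f i = b := by
  classical
  have hc : ((Iᶜ.erase x).erase y).card = I.card := by
    have h2 := hI.2
    rw [card_erase_of_mem (mem_erase.2 ⟨hxy.symm, mem_compl.2 hy⟩),
      card_erase_of_mem (mem_compl.2 hx), card_compl]
    omega
  have himg : univ.image f = (Iᶜ.erase x).erase y := by
    apply eq_of_subset_of_card_le
    · intro u hu
      obtain ⟨i, -, rfl⟩ := mem_image.1 hu
      exact mem_erase.2 ⟨(hf.2 i).2.2, mem_erase.2 ⟨(hf.2 i).2.1,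
        mem_compl.2 (mt_notMem hI hf i)⟩⟩
    · rw [card_image_of_injective _ hf.1, hc, card_univ, Fintype.card_coe]
  have hbm : b ∈ univ.image f := by
    rw [himg]
    exact mem_erase.2 ⟨hby, mem_erase.2 ⟨hbx, mem_compl.2 hb⟩⟩
  obtain ⟨i, -, hi⟩ := mem_image.1 hbm
  exact ⟨i, hi⟩

theorem mt_nonempty (h : SB H) (hI : Big H I) {x y : V} (hx : x ∉ I) (hy : y ∉ I) (hxy : x ≠ y) :
    (Mt H I x y).Nonempty := by
  obtain ⟨f, hf⟩ := h.bic x y hxy
  have hx' : x ∈ nb H I := by rw [big_nb h hI]; exact mem_compl.2 hx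
  have hy' : y ∈ nb H I := by rw [big_nb h hI]; exact mem_compl.2 hy
  have h1 := (swp hI.1 (big_card h hI).1 hx' hy' hxy hf).1
  have hm : ∀ i : Ix I, i.1 ∈ ({x, y} : Finset V)ᶜ := by
    intro i
    rw [mem_compl, mem_insert, mem_singleton]
    rintro (h2 | h2)
    · exact hx (h2 ▸ i.2)
    · exact hy (h2 ▸ i.2)
  refine ⟨fun i => f i.1, mem_Mt.2 ⟨fun i j hij => ?_, fun i => ⟨(hf i.1 (hm i)).2.2,
    (h1 i.1 i.2).2⟩⟩⟩
  have hij' : f i.1 = f j.1 := hij
  apply Subtype.ext
  rw [← (hf i.1 (hm i)).2.1, ← (hf j.1 (hm j)).2.1, hij']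

end Pool.Agent.Work.MP_0f7328_co.OC
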