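import Pool.Agent.Work.MP_0f7328_co.OC.Bij

/-!
Counting in a closed set `C`: it contains as many elements of `{x, z}` (missed by `f`) as of
`{y, w}` (missed by `g`).

Proof. `f` maps `I ∩ C` bijectively onto `(C \ I) \ {x, z}`: for `i ∈ I ∩ C`, `f i ∈ C`, not in
`I`, not `x, z`; and every `b ∈ C \ I` different from `x, z` is `f i` for some `i` (`mt_surj`), and
`i ∈ C` since `C` is closed. So `(I ∩ C).card = (C \ I).card - (C ∩ {x, z}).card` (`x, z ∉ I`), more
precisely `(I ∩ C).card + (C ∩ {x, z}).card = (C \ I).card`. The same for `g` and `{y, w}`.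
-/

set_option autoImplicit false
set_option linter.unusedSectionVars false

namespace Pool.Agent.Work.MP_0f7328_co.OC

open Finset TV MvPolynomial

variable {V : Type} [Fintype V] [DecidableEq V] {H : SimpleGraph V} {I : Finset V}

private theorem half (hI : Big H I) {x z : V} (hx : x ∉ I) (hz : z ∉ I) (hxz : x ≠ z)
    {f : Ix I → V} (hf : IsMt H I x z f) {C : Finset V} (hC : ∀ i : Ix I, i.1 ∈ C ↔ f i ∈ C) :
    ((univ : Finset (Ix I)).filter fun i => i.1 ∈ C).card + (C ∩ {x, z}).card = (C \ I).card := by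
  classical
  have h1 : (((univ : Finset (Ix I)).filter fun i => i.1 ∈ C).image f) = (C \ I) \ {x, z} := by
    ext b
    simp only [mem_image, mem_filter, mem_univ, true_and, mem_sdiff, mem_insert, mem_singleton]
    constructor
    · rintro ⟨i, hi, rfl⟩
      refine ⟨⟨(hC i).1 hi, mt_notMem hI hf i⟩, ?_⟩
      rintro (h | h)
      · exact (hf.2 i).2.1 h
      · exact (hf.2 i).2.2 h
    · rintro ⟨⟨hbC, hbI⟩, hb⟩
      push Not at hb
      obtain ⟨i, rfl⟩ := mt_surj hI hx hz hxz hf hbI hb.1 hb.2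
      exact ⟨i, (hC i).2 hbC, rfl⟩
  have h2 : (C \ I) ∩ {x, z} = C ∩ {x, z} := by
    ext b
    simp only [mem_inter, mem_sdiff, mem_insert, mem_singleton]
    constructor
    · rintro ⟨⟨h, _⟩, h'⟩
      exact ⟨h, h'⟩
    · rintro ⟨h, h'⟩
      refine ⟨⟨h, ?_⟩, h'⟩
      rcases h' with rfl | rfl
      · exact hx
      · exact hz
  rw [← card_image_of_injective _ hf.1, h1, ← h2]
  exact card_sdiff_add_card_inter _ _

theorem cnt (hI : Big H I) {x y z w : V} (hx : x ∉ I) (hy : y ∉ I) (hz : z ∉ I) (hw : w ∉ I)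
    (hxz : x ≠ z) (hyw : y ≠ w) {f g : Ix I → V} (hf : IsMt H I x z f) (hg : IsMt H I y w g)
    {C : Finset V} (hC : Cls f g C) :
    (C ∩ {x, z}).card = (C ∩ {y, w}).card := by
  have h1 := half hI hx hz hxz hf fun i => (hC i).1
  have h2 := half hI hy hw hyw hg fun i => (hC i).2
  omega

end Pool.Agent.Work.MP_0f7328_co.OC
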