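import Pool.Agent.Work.MP_0f7328_co.OC.Defs

/-!
Decomposition of a cycle at one of its vertices.

Proof. Write `c = cons h q` with `q : Walk u o` (`c` is not nil). By
`SimpleGraph.Walk.cons_isCycle_iff`, `q` is a path and `s(o, u)` is not an edge of `q`. `u ≠ o`, so
`q.reverse : Walk o u` is `cons h' q'` with `q' : Walk v u` a path that does not contain `o`
(`cons_isPath_iff`). Let `p` be `q'.reverse : Walk u v`, transferred to `minus H (insert o I)` (its
vertices avoid `o`; `Walk.transfer` with the edges, or induction). `v ≠ u` because `s(o, v)` is an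
edge of `q` and `s(o, u)` is not. The support of `c` is `o` together with the support of `p`; the
edges of `c` are `s(o, u)`, `s(o, v)` and edges of `p`, which do not contain `o`.
-/

set_option autoImplicit false
set_option linter.unusedSectionVars false

namespace Pool.Agent.Work.MP_0f7328_co.OC

open Finset TV MvPolynomial

variable {V : Type} [Fintype V] [DecidableEq V] {H : SimpleGraph V} {I : Finset V}

/-- A walk that avoids `o`, with its support. -/
private theorem avoid_aux {o z w : V} (p : (minus H I).Walk z w) (ho : o ∉ p.support) :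
    ∃ q : (minus H (insert o I)).Walk z w, q.length = p.length ∧ q.support = p.support := by
  induction p with
  | nil => exact ⟨SimpleGraph.Walk.nil, rfl, rfl⟩
  | @cons a b w h q ih =>
    rw [SimpleGraph.Walk.support_cons, List.mem_cons, not_or] at ho
    obtain ⟨q', hl, hs⟩ := ih ho.2
    have hb : b ≠ o := fun hb => ho.2 (hb ▸ q.start_mem_support)
    have hadj : (minus H (insert o I)).Adj a b := by
      rw [minus_adj] at h ⊢
      rw [mem_insert, mem_insert, not_or, not_or]
      exact ⟨h.1, ⟨fun e => ho.1 e.symm, h.2.1⟩, ⟨hb, h.2.2⟩⟩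
    refine ⟨SimpleGraph.Walk.cons hadj q', ?_, ?_⟩
    · rw [SimpleGraph.Walk.length_cons, SimpleGraph.Walk.length_cons, hl]
    · rw [SimpleGraph.Walk.support_cons, SimpleGraph.Walk.support_cons, hs]

theorem cyc_decomp {o : V} (c : (minus H I).Walk o o) (hc : c.IsCycle) :
    ∃ u v, u ≠ v ∧ (minus H I).Adj o u ∧ (minus H I).Adj o v ∧ s(o, u) ∈ c.edges ∧
      s(o, v) ∈ c.edges ∧ ∃ p : (minus H (insert o I)).Walk u v,
        p.length + 2 = c.length ∧ ∀ x ∈ c.support, x ≠ o → x ∈ p.support := by
  cases c with
  | nil => exact absurd hc SimpleGraph.Walk.not_isCycle_nil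
  | @cons _ u _ h q =>
    rw [SimpleGraph.Walk.cons_isCycle_iff] at hc
    obtain ⟨hq, he⟩ := hc
    have hqr : q.reverse.IsPath := hq.reverse
    have hou : o ≠ u := h.ne
    have hlen : q.reverse.length = q.length := q.length_reverse
    have hsup : ∀ x, x ∈ q.support → x ∈ q.reverse.support := by
      intro x hx
      rw [SimpleGraph.Walk.support_reverse, List.mem_reverse]
      exact hx
    have hedg : ∀ e, e ∈ q.reverse.edges → e ∈ q.edges := by
      intro e hx
      rwa [SimpleGraph.Walk.edges_reverse, List.mem_reverse] at hx
    generalize q.reverse = r at hqr hlen hsup hedg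
    cases r with
    | nil => exact absurd rfl hou
    | @cons _ v _ h' q' =>
      rw [SimpleGraph.Walk.cons_isPath_iff] at hqr
      obtain ⟨hp, ho⟩ := hqr
      have ho' : o ∉ q'.reverse.support := by
        rw [SimpleGraph.Walk.support_reverse, List.mem_reverse]
        exact ho
      obtain ⟨p, hpl, hps⟩ := avoid_aux q'.reverse ho'
      have hvq : s(o, v) ∈ q.edges := hedg _ (by simp)
      refine ⟨u, v, ?_, h, h', ?_, ?_, p, ?_, ?_⟩
      · rintro rfl
        exact he hvq
      · simp
      · rw [SimpleGraph.Walk.edges_cons]
        exact List.mem_cons_of_mem _ hvq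
      · rw [hpl, SimpleGraph.Walk.length_reverse, SimpleGraph.Walk.length_cons, ← hlen,
          SimpleGraph.Walk.length_cons]
      · intro x hx hxo
        rw [SimpleGraph.Walk.support_cons, List.mem_cons] at hx
        rcases hx with hx | hx
        · exact absurd hx hxo
        · have := hsup x hx
          rw [SimpleGraph.Walk.support_cons, List.mem_cons] at this
          rcases this with h1 | h1
          · exact absurd h1 hxo
          · rw [hps, SimpleGraph.Walk.support_reverse, List.mem_reverse]
            exact h1

/-- A walk that avoids `o` is a walk in the graph without `o`. -/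
theorem walk_avoid {o z w : V} (p : (minus H I).Walk z w) (ho : o ∉ p.support) :
    ∃ q : (minus H (insert o I)).Walk z w, q.length = p.length := by
  obtain ⟨q, h, _⟩ := avoid_aux p ho
  exact ⟨q, h⟩

end Pool.Agent.Work.MP_0f7328_co.OC
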