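import Pool.Agent.Work.MP_0f7328_co.OC.CycO

/-!
There is at most one cycle outside of `I`.

Proof. By symmetry it suffices that every edge `e = s(x, y)` of `d` is an edge of `c`. `x` and `y` are
adjacent in `minus H I` and lie on `d`. Every vertex on `d` has two different neighbours in
`minus H I` (rotate `d` to this vertex, which is again a cycle, and use `cyc_decomp`), so `x` and `y`
are on `c` by `cyc_mem`. Rotate `c` to `x` (a cycle with the same edges) and decompose it by
`cyc_decomp`: `u, v, p`. `y ≠ x` is on the rotated cycle, so on `p`. If `y = u` or `y = v` then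
`s(x, y)` is an edge of `c`. Otherwise let `p₁ = p.takeUntil y`, `p₂ = p.dropUntil y`, walks in
`minus H (insert x I)` from `u` to `y` and from `y` to `v`. `x` is adjacent to `u`, `v` and `y`, three
different vertices. By `r1`, `p₁.length`, `p₂.length` and `p.length` are odd, but
`p.length = p₁.length + p₂.length`, a contradiction.
-/

set_option autoImplicit false
set_option linter.unusedSectionVars false

namespace Pool.Agent.Work.MP_0f7328_co.OC

open Finset TV MvPolynomial

variable {V : Type} [Fintype V] [DecidableEq V] {H : SimpleGraph V} {I : Finset V}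

private theorem cyc_on (h : SB H) (hI : Big H I) {z w : V} (c : (minus H I).Walk z z)
    (hc : c.IsCycle) (d : (minus H I).Walk w w) (hd : d.IsCycle) {o : V} (ho : o ∈ d.support) :
    o ∈ c.support := by
  obtain ⟨u, v, huv, hou, hov, -⟩ := cyc_decomp (d.rotate o ho) (hd.rotate ho)
  exact cyc_mem h hI c hc hou hov huv

private theorem cyc_le (h : SB H) (hI : Big H I) {z w : V} (c : (minus H I).Walk z z)
    (hc : c.IsCycle) (d : (minus H I).Walk w w) (hd : d.IsCycle) {e : Sym2 V}
    (he : e ∈ d.edges) : e ∈ c.edges := by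
  induction e using Sym2.ind with
  | _ x y =>
    have hxd : x ∈ d.support := d.fst_mem_support_of_mem_edges he
    have hyd : y ∈ d.support := d.snd_mem_support_of_mem_edges he
    have hxy : (minus H I).Adj x y := d.adj_of_mem_edges he
    have hxc : x ∈ c.support := cyc_on h hI c hc d hd hxd
    have hc' : (c.rotate x hxc).IsCycle := hc.rotate hxc
    have hyc : y ∈ (c.rotate x hxc).support := cyc_on h hI (c.rotate x hxc) hc' d hd hyd
    obtain ⟨u, v, huv, hxu, hxv, hu, hv, p, hp, hsup⟩ := cyc_decomp (c.rotate x hxc) hc'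
    have hm : ∀ e', e' ∈ (c.rotate x hxc).edges → e' ∈ c.edges := fun e' he' =>
      (c.rotate_edges x hxc).mem_iff.1 he'
    by_cases hyu : y = u
    · rw [hyu]
      exact hm _ hu
    by_cases hyv : y = v
    · rw [hyv]
      exact hm _ hv
    exfalso
    have hyp : y ∈ p.support := hsup y hyc hxy.ne'
    have h1 := r1 h hI hxy.2.1 hxu.2.2 hxy.2.2 hxu.1 hxy.1 (Ne.symm hyu) (p.takeUntil y hyp)
    have h2 := r1 h hI hxy.2.1 hxy.2.2 hxv.2.2 hxy.1 hxv.1 hyv (p.dropUntil y hyp)
    have h3 := r1 h hI hxy.2.1 hxu.2.2 hxv.2.2 hxu.1 hxv.1 huv p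
    have h4 : p.length = (p.takeUntil y hyp).length + (p.dropUntil y hyp).length := by
      rw [← SimpleGraph.Walk.length_append, p.take_spec hyp]
    rw [h4] at h3
    exact (Nat.not_odd_iff_even.2 (h1.add_odd h2)) h3

theorem cyc_unique (h : SB H) (hI : Big H I) {z w : V} (c : (minus H I).Walk z z)
    (hc : c.IsCycle) (d : (minus H I).Walk w w) (hd : d.IsCycle) (e : Sym2 V) :
    e ∈ c.edges ↔ e ∈ d.edges := by
  exact ⟨fun he => cyc_le h hI d hd c hc he, fun he => cyc_le h hI c hc d hd he⟩

end Pool.Agent.Work.MP_0f7328_co.OC
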