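import Pool.Agent.Work.MP_0f7328_co.OC.LkM

/-!
The polynomials of two different linking types have no common monomial, so if they are equal then
they are zero.

Proof. For `m : (Ix I × V) →₀ ℕ` say that `a`, `b` are linked in `m` if every set `C` with
(`i ∈ C ↔ c ∈ C` for all `(i, c)` with `m (i, c) ≠ 0`) contains both or none of `a, b`. As
`(mon f + mon g) (i, c) ≠ 0` iff `c = f i` or `c = g i`, linked in `mon f + mon g` is the same as
`Lk f g`. So the coefficient of `NN x y z w` at `m` is the number of pairs `(f, g)` with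
`mon f + mon g = m` and `x, y` linked in `m`: it is zero if `x, y` are not linked in `m`. In the same
way the coefficient of `NN x z y w` at `m` vanishes if `x, z` are not linked in `m`.
Suppose the polynomials are equal, and the coefficient at some `m` is not zero. Then `m` is
`mon f + mon g` for some `f ∈ Mt x z`, `g ∈ Mt y w`, and both `x, y` and `x, z` are linked in `m`, so
`Lk f g x y` and `Lk f g x z`, which contradicts `lk_main` (`¬ Lk f g x z`). So all coefficients are
zero.
-/

set_option autoImplicit false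
set_option linter.unusedSectionVars false

namespace Pool.Agent.Work.MP_0f7328_co.OC

open Finset TV MvPolynomial

variable {V : Type} [Fintype V] [DecidableEq V] {H : SimpleGraph V} {I : Finset V}

private theorem mon_apply {I : Finset V} (f : Ix I → V) (i : Ix I) (c : V) :
    mon f (i, c) = if f i = c then 1 else 0 := by
  unfold mon
  rw [Finsupp.finsetSum_apply, Finset.sum_eq_single i]
  · rw [Finsupp.single_apply]
    simp
  · intro j _ hj
    rw [Finsupp.single_apply, if_neg]
    intro h
    exact hj (Prod.ext_iff.1 h).1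
  · intro h
    exact absurd (mem_univ i) h

private theorem mon_ne {I : Finset V} (f g : Ix I → V) (i : Ix I) (c : V) :
    (mon f + mon g) (i, c) ≠ 0 ↔ (f i = c ∨ g i = c) := by
  rw [Finsupp.add_apply, mon_apply, mon_apply]
  by_cases h1 : f i = c <;> by_cases h2 : g i = c <;> simp [h1, h2]

private theorem cls_iff {I : Finset V} (f g : Ix I → V) (C : Finset V) :
    Cls f g C ↔ ∀ (i : Ix I) (c : V), (mon f + mon g) (i, c) ≠ 0 → (i.1 ∈ C ↔ c ∈ C) := by
  constructor
  · intro h i c hc
    rcases (mon_ne f g i c).1 hc with h1 | h1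
    · rw [← h1]
      exact (h i).1
    · rw [← h1]
      exact (h i).2
  · intro h i
    exact ⟨h i _ ((mon_ne f g i _).2 (Or.inl rfl)), h i _ ((mon_ne f g i _).2 (Or.inr rfl))⟩

private theorem lk_of_eq {I : Finset V} {f g f' g' : Ix I → V} {a b : V}
    (h : mon f + mon g = mon f' + mon g') (hl : Lk f g a b) : Lk f' g' a b := by
  intro C hC
  refine hl C ?_
  rw [cls_iff] at hC ⊢
  rw [h]
  exact hC

private theorem coeff_nn {x y z w : V} {m : (Ix I × V) →₀ ℕ}
    (h : coeff m (NN H I x y z w) ≠ 0) :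
    ∃ f g, IsMt H I x z f ∧ IsMt H I y w g ∧ Lk f g x y ∧ mon f + mon g = m := by
  unfold NN at h
  rw [coeff_sum] at h
  obtain ⟨f, hf, h1⟩ := exists_ne_zero_of_sum_ne_zero h
  rw [coeff_sum] at h1
  obtain ⟨g, hg, h2⟩ := exists_ne_zero_of_sum_ne_zero h1
  by_cases h3 : Lk f g x y
  · rw [if_pos h3, coeff_monomial] at h2
    by_cases h4 : mon f + mon g = m
    · exact ⟨f, g, mem_Mt.1 hf, mem_Mt.1 hg, h3, h4⟩
    · rw [if_neg h4] at h2
      exact absurd rfl h2
  · rw [if_neg h3, coeff_zero] at h2
    exact absurd rfl h2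

theorem dis (hI : Big H I) {x y z w : V} (hx : x ∉ I) (hy : y ∉ I) (hz : z ∉ I)
    (hw : w ∉ I) (hxy : x ≠ y) (hxz : x ≠ z) (hxw : x ≠ w) (hyz : y ≠ z) (hyw : y ≠ w)
    (hzw : z ≠ w) (he : NN H I x y z w = NN H I x z y w) : NN H I x y z w = 0 := by
  by_contra hne
  obtain ⟨m, hm⟩ := ne_zero_iff.1 hne
  obtain ⟨f, g, hf, hg, _, hfg⟩ := coeff_nn hm
  rw [he] at hm
  obtain ⟨f', g', _, _, hl', hfg'⟩ := coeff_nn hm
  exact (lk_main hI hx hy hz hw hxy hxz hxw hyz hyw hzw hf hg).1
    (lk_of_eq (hfg'.trans hfg.symm) hl')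

end Pool.Agent.Work.MP_0f7328_co.OC
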