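import Pool.Agent.Work.MP_0f7328_co.OC.NAlg
import Pool.Agent.Work.MP_0f7328_co.OC.PNe

/-!
At most one of the three linking types is empty.

Proof. `nn_sum` for `(x, y, w, z)` gives `pp x w * pp y z = NN x y w z + NN x z w y`, which is
`NN x y z w + NN x z y w` by `nn_swap` twice. If both are zero then `pp x w = 0` or `pp y z = 0`
(no zero divisors), contradicting `pp_ne`.
-/

set_option autoImplicit false
set_option linter.unusedSectionVars false

namespace Pool.Agent.Work.MP_0f7328_co.OC

open Finset TV MvPolynomial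

variable {V : Type} [Fintype V] [DecidableEq V] {H : SimpleGraph V} {I : Finset V}

theorem zer (h : SB H) (hI : Big H I) {x y z w : V} (hx : x ∉ I) (hy : y ∉ I) (hz : z ∉ I)
    (hw : w ∉ I) (hxy : x ≠ y) (hxz : x ≠ z) (hxw : x ≠ w) (hyz : y ≠ z) (hyw : y ≠ w)
    (hzw : z ≠ w) (h1 : NN H I x y z w = 0) (h2 : NN H I x z y w = 0) : False := by
  have e := nn_sum hI hx hy hw hz hxy hxw hxz hyw hyz hzw.symm
  rw [← nn_swap hI hx hy hz hw hxy hxz hxw hyz hyw hzw, h1,
    ← nn_swap hI hx hz hy hw hxz hxy hxw hyz.symm hzw hyw, h2, add_zero] at e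
  rcases mul_eq_zero.1 e with h3 | h3
  · exact pp_ne h hI hx hw hxw h3
  · exact pp_ne h hI hy hz hyz h3

end Pool.Agent.Work.MP_0f7328_co.OC
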