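import Pool.Agent.Work.MP_0f7328_co.OC.WkL
import Pool.Agent.Work.MP_0f7328_co.OC.Alt
import Pool.Agent.Work.MP_0f7328_co.OC.Dis
import Pool.Agent.Work.MP_0f7328_co.OC.Zer

/-!
If `o` has two neighbours outside of `I` then there is no closed walk of odd length outside of `I`
that avoids `o`.

Proof. Suppose `p.length` is odd; so `p` is not the trivial walk and all its vertices are outside of
`I` and different from `o`.
Case 1: `u` is on `p`. Rotate: `p.rotate` is a closed walk at `u` of the same length. `lab_walk` from
the label `true` of `u` gives that `u` has the label `false`, contradicting the definition of `Lab` (or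
`lab_not`). Case 2: `v` is on `p`: the same with the labels exchanged.
Case 3: `u, v` are not on `p`. `alt_walk` for `p` from `z` to `z`: `c z * q z = - c z * q z`, so
`c z * q z = 0` (characteristic 0) and `c z = 0` since `q z ≠ 0` (`pp_ne`). So
`NN o u v z = NN o v u z`; by `dis` (for `x y z w := o u v z`) it is zero, and both are zero, which
contradicts `zer`.
-/

set_option autoImplicit false
set_option linter.unusedSectionVars false

namespace Pool.Agent.Work.MP_0f7328_co.OC

open Finset TV MvPolynomial

variable {V : Type} [Fintype V] [DecidableEq V] {H : SimpleGraph V} {I : Finset V}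

private theorem walk_notMem {o z w : V} (p : (minus H (insert o I)).Walk z w)
    (hp : 0 < p.length) {c : V} (hc : c ∈ p.support) : c ∉ I ∧ c ≠ o := by
  have key : ∀ {a b : V}, (minus H (insert o I)).Adj a b → (a ∉ I ∧ a ≠ o) ∧ (b ∉ I ∧ b ≠ o) := by
    intro a b hab
    have h1 := hab.2.1
    have h2 := hab.2.2
    rw [mem_insert, not_or] at h1 h2
    exact ⟨⟨h1.2, h1.1⟩, ⟨h2.2, h2.1⟩⟩
  induction p with
  | nil => simp at hp
  | @cons a b d hab q ih =>
    rw [SimpleGraph.Walk.support_cons, List.mem_cons] at hc
    rcases hc with rfl | hc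
    · exact (key hab).1
    · by_cases hq : 0 < q.length
      · exact ih hq hc
      · cases q with
        | nil =>
          rw [SimpleGraph.Walk.support_nil, List.mem_singleton] at hc
          subst hc
          exact (key hab).2
        | cons _ _ => simp at hq

theorem r2 (h : SB H) (hI : Big H I) {o u v : V} (ho : o ∉ I) (hu : u ∉ I) (hv : v ∉ I)
    (hou : H.Adj o u) (hov : H.Adj o v) (huv : u ≠ v) {z : V}
    (p : (minus H (insert o I)).Walk z z) : Even p.length := by
  by_contra hodd
  rw [Nat.not_even_iff_odd] at hodd
  have hpos : 0 < p.length := hodd.pos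
  by_cases h1 : u ∈ p.support
  · have hl : Lab H I o u v true u := by
      simp [Lab]
    have h2 := lab_walk h hI ho hu hv hou hov huv (p.rotate _ h1) hl
    rw [SimpleGraph.Walk.length_rotate, decide_eq_true hodd] at h2
    simp [Lab] at h2
  by_cases h3 : v ∈ p.support
  · have hl : Lab H I o u v false v := by
      simp [Lab, huv.symm]
    have h2 := lab_walk h hI ho hu hv hou hov huv (p.rotate _ h3) hl
    rw [SimpleGraph.Walk.length_rotate, decide_eq_true hodd] at h2
    simp [Lab, huv.symm] at h2
  have hz : z ∈ p.support := p.start_mem_support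
  obtain ⟨hzI, hzo⟩ := walk_notMem p hpos hz
  have hzu : z ≠ u := fun e => h1 (e ▸ hz)
  have hzv : z ≠ v := fun e => h3 (e ▸ hz)
  have h4 := alt_walk h hI ho hu hv hou hov huv p h1 h3
  rw [hodd.neg_one_pow] at h4
  have hq : pp H I o z ≠ 0 := pp_ne h hI ho hzI hzo.symm
  have h5 : (NN H I o u v z - NN H I o v u z) * pp H I o z = 0 := by
    have h6 : (2 : MvPolynomial (Ix I × V) ℤ) *
        ((NN H I o u v z - NN H I o v u z) * pp H I o z) = 0 := by
      linear_combination h4
    rcases mul_eq_zero.1 h6 with h7 | h7
    · exact absurd h7 two_ne_zero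
    · exact h7
  have h8 : NN H I o u v z = NN H I o v u z := by
    rcases mul_eq_zero.1 h5 with h9 | h9
    · exact sub_eq_zero.1 h9
    · exact absurd h9 hq
  have hou' : o ≠ u := hou.ne
  have hov' : o ≠ v := hov.ne
  have h10 : NN H I o u v z = 0 :=
    dis hI ho hu hv hzI hou' hov' hzo.symm huv hzu.symm hzv.symm h8
  exact zer h hI ho hu hv hzI hou' hov' hzo.symm huv hzu.symm hzv.symm h10 (h8 ▸ h10)

end Pool.Agent.Work.MP_0f7328_co.OC
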