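import Pool.Agent.Work.MP_0f7328_co.OC.CycD
import Pool.Agent.Work.MP_0f7328_co.OC.R2

/-!
Cycles outside of `I` are odd and pass through all vertices with two neighbours outside of `I`.

Proof of `cyc_odd`: `cyc_decomp` and `r1`: the length of `p` is odd and `c.length = p.length + 2`.
Proof of `cyc_mem`: if `o` is not on `c` then `walk_avoid` gives a closed walk of the same length in
`minus H (insert o I)`, which is even by `r2`; but `c.length` is odd.
-/

set_option autoImplicit false
set_option linter.unusedSectionVars false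

namespace Pool.Agent.Work.MP_0f7328_co.OC

open Finset TV MvPolynomial

variable {V : Type} [Fintype V] [DecidableEq V] {H : SimpleGraph V} {I : Finset V}

theorem cyc_odd (h : SB H) (hI : Big H I) {o : V} (c : (minus H I).Walk o o) (hc : c.IsCycle) :
    Odd c.length := by
  obtain ⟨u, v, huv, hou, hov, -, -, p, hp, -⟩ := cyc_decomp c hc
  have h1 : Odd p.length := r1 h hI hou.2.1 hou.2.2 hov.2.2 hou.1 hov.1 huv p
  rw [← hp]
  exact h1.add_even (by decide)

theorem cyc_mem (h : SB H) (hI : Big H I) {z : V} (c : (minus H I).Walk z z) (hc : c.IsCycle)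
    {o u v : V} (hou : (minus H I).Adj o u) (hov : (minus H I).Adj o v) (huv : u ≠ v) :
    o ∈ c.support := by
  by_contra ho
  obtain ⟨q, hq⟩ := walk_avoid c ho
  have h1 : Even q.length := r2 h hI hou.2.1 hou.2.2 hov.2.2 hou.1 hov.1 huv q
  rw [hq] at h1
  exact (Nat.not_even_iff_odd.2 (cyc_odd h hI c hc)) h1

end Pool.Agent.Work.MP_0f7328_co.OC
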