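import Pool.Agent.Work.MP_0f7328_co.TV.BigN
import Pool.Agent.Work.MP_0f7328_co.TV.Swp
import Pool.Agent.Work.MP_0f7328_co.TV.Hit

/-!
Stable sets of size `|V| / 2 - 1` in solid bricks: definitions.

`H` is a simple graph, `I` a set of vertices. A matching of `I` into the complement of `I` that
misses `x` and `y` is written as a function on `I`.
-/

set_option autoImplicit false
set_option linter.unusedSectionVars false

namespace Pool.Agent.Work.MP_0f7328_co.OC

open Finset TV MvPolynomial

section defs

variable {V : Type}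

/-- The graph `H - I`; the vertices of `I` are kept as isolated vertices. -/
def minus (H : SimpleGraph V) (I : Finset V) : SimpleGraph V where
  Adj a b := H.Adj a b ∧ a ∉ I ∧ b ∉ I
  symm := ⟨fun _ _ h => ⟨h.1.symm, h.2.2, h.2.1⟩⟩
  loopless := ⟨fun _ h => h.1.ne rfl⟩

theorem minus_adj {H : SimpleGraph V} {I : Finset V} {a b : V} :
    (minus H I).Adj a b ↔ H.Adj a b ∧ a ∉ I ∧ b ∉ I := Iff.rfl

/-- The elements of `I`. -/
abbrev Ix (I : Finset V) : Type := {i : V // i ∈ I}

/-- `f` is a matching of `I` along edges of `H` that misses `x` and `y`. -/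
def IsMt (H : SimpleGraph V) (I : Finset V) (x y : V) (f : Ix I → V) : Prop :=
  Function.Injective f ∧ ∀ i, H.Adj i.1 (f i) ∧ f i ≠ x ∧ f i ≠ y

/-- `C` is closed under the edges of `f` and `g`. -/
def Cls {I : Finset V} (f g : Ix I → V) (C : Finset V) : Prop :=
  ∀ i : Ix I, (i.1 ∈ C ↔ f i ∈ C) ∧ (i.1 ∈ C ↔ g i ∈ C)

/-- No closed set separates `a` and `b`: they are in the same component of the graph formed by the
edges of `f` and `g`. -/
def Lk {I : Finset V} (f g : Ix I → V) (a b : V) : Prop :=
  ∀ C : Finset V, Cls f g C → (a ∈ C ↔ b ∈ C)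

variable [Fintype V] [DecidableEq V]

open Classical in
/-- The set of the matchings of `I` that miss `x` and `y`. -/
noncomputable def Mt (H : SimpleGraph V) (I : Finset V) (x y : V) : Finset (Ix I → V) :=
  univ.filter fun f => IsMt H I x y f

/-- The monomial of a matching. -/
noncomputable def mon {I : Finset V} (f : Ix I → V) : (Ix I × V) →₀ ℕ :=
  ∑ i, Finsupp.single (i, f i) 1

/-- The generating polynomial of the matchings that miss `x` and `y`. -/
noncomputable def pp (H : SimpleGraph V) (I : Finset V) (x y : V) :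
    MvPolynomial (Ix I × V) ℤ := ∑ f ∈ Mt H I x y, monomial (mon f) 1

open Classical in
/-- The generating polynomial of the pairs of a matching `f` that misses `x` and `z` and a matching
`g` that misses `y` and `w`, such that `x` and `y` are in the same component. -/
noncomputable def NN (H : SimpleGraph V) (I : Finset V) (x y z w : V) :
    MvPolynomial (Ix I × V) ℤ :=
  ∑ f ∈ Mt H I x z, ∑ g ∈ Mt H I y w, if Lk f g x y then monomial (mon f + mon g) 1 else 0

open Classical in
/-- The component of `a`. -/
noncomputable def comp {I : Finset V} (f g : Ix I → V) (a : V) : Finset V :=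
  univ.filter fun b => Lk f g a b

open Classical in
/-- Interchange of `f` and `g` on a set `C`. -/
noncomputable def swf {I : Finset V} (C : Finset V) (f g : Ix I → V) : Ix I → V :=
  fun i => if i.1 ∈ C then g i else f i

open Classical in
/-- The label of a vertex `z`, for a vertex `o` with neighbours `u` and `v`. -/
noncomputable def Lab (H : SimpleGraph V) (I : Finset V) (o u v : V) (b : Bool) (z : V) : Prop :=
  if z = u then b = true else if z = v then b = false else
    if b = true then NN H I o u v z = 0 else NN H I o v u z = 0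

end defs

section basic

variable {V : Type} [Fintype V] [DecidableEq V] {H : SimpleGraph V} {I : Finset V}

theorem mem_Mt {x y : V} {f : Ix I → V} : f ∈ Mt H I x y ↔ IsMt H I x y f := by
  simp [Mt]

theorem Mt_comm (x y : V) : Mt H I x y = Mt H I y x := by
  ext f
  rw [mem_Mt, mem_Mt]
  exact ⟨fun h => ⟨h.1, fun i => ⟨(h.2 i).1, (h.2 i).2.2, (h.2 i).2.1⟩⟩,
    fun h => ⟨h.1, fun i => ⟨(h.2 i).1, (h.2 i).2.2, (h.2 i).2.1⟩⟩⟩

theorem pp_comm (x y : V) : pp H I x y = pp H I y x := by
  unfold pp
  rw [Mt_comm]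

theorem Cls.symm {f g : Ix I → V} {C : Finset V} (h : Cls f g C) : Cls g f C :=
  fun i => ⟨(h i).2, (h i).1⟩

theorem Cls.compl {f g : Ix I → V} {C : Finset V} (h : Cls f g C) : Cls f g Cᶜ := by
  intro i
  rw [mem_compl, mem_compl, mem_compl]
  exact ⟨not_congr (h i).1, not_congr (h i).2⟩

theorem Lk.refl (f g : Ix I → V) (a : V) : Lk f g a a := fun _ _ => Iff.rfl

theorem Lk.symm {f g : Ix I → V} {a b : V} (h : Lk f g a b) : Lk f g b a :=
  fun C hC => (h C hC).symm

theorem Lk.trans {f g : Ix I → V} {a b c : V} (h : Lk f g a b) (h' : Lk f g b c) : Lk f g a c :=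
  fun C hC => (h C hC).trans (h' C hC)

theorem Lk.swap {f g : Ix I → V} {a b : V} (h : Lk f g a b) : Lk g f a b :=
  fun C hC => h C hC.symm

theorem lk_left (f g : Ix I → V) (i : Ix I) : Lk f g i.1 (f i) := fun _ hC => (hC i).1

theorem lk_right (f g : Ix I → V) (i : Ix I) : Lk f g i.1 (g i) := fun _ hC => (hC i).2

theorem mem_comp {f g : Ix I → V} {a b : V} : b ∈ comp f g a ↔ Lk f g a b := by
  simp [comp]

theorem cls_comp (f g : Ix I → V) (a : V) : Cls f g (comp f g a) := by
  intro i
  rw [mem_comp, mem_comp, mem_comp]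
  exact ⟨⟨fun h => h.trans (lk_left f g i), fun h => h.trans (lk_left f g i).symm⟩,
    ⟨fun h => h.trans (lk_right f g i), fun h => h.trans (lk_right f g i).symm⟩⟩

theorem swf_mem {C : Finset V} {f g : Ix I → V} {i : Ix I} (h : i.1 ∈ C) : swf C f g i = g i :=
  if_pos h

theorem swf_notMem {C : Finset V} {f g : Ix I → V} {i : Ix I} (h : i.1 ∉ C) :
    swf C f g i = f i := if_neg h

theorem minus_mono {I J : Finset V} (h : I ⊆ J) : minus H J ≤ minus H I :=
  fun _ _ h' => ⟨h'.1, fun hi => h'.2.1 (h hi), fun hi => h'.2.2 (h hi)⟩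

end basic

end Pool.Agent.Work.MP_0f7328_co.OC
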