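import Pool.Agent.Work.MP_0f7328_co.OC.Cnt

/-!
The components of the four missed vertices: `x` is linked to exactly one of `y`, `w`, and `z` to
the other one.

Proof. Let `τ : V → V` be: `τ b = b` for `b ∈ I`; `τ y = x`, `τ w = z`; and for the other
`b ∉ I`, `τ b = f i` where `g i = b` (`mt_surj` for `g`). `τ` is injective: `g` is injective, `f` is
injective and misses `x, z`, and the values at `b ∉ I` are not in `I`. Apply `hit τ _ x y w` (as
`τ y = x`): there are `X` and `e` with `x, e ∈ X`, `e = y` or `e = w`, and `v ≠ y`, `v ≠ w`,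
`τ v ∈ X` for all `v ∈ X`, `v ≠ e`. Let `e'` be the other one of `y, w`; `e' ∉ X` (an element of `X`
different from `e` is neither `y` nor `w`).
(1) Let `X₀ = X \ I`. Then `x, e ∈ X₀`, and for `v ∈ X₀`, `v ≠ e`, `τ v ∈ X₀` (`τ v ∉ I` for `v ∉ I`).
(2) `τ` maps `X₀ \ {e}` injectively into `X₀ \ {x}` (if `τ v = x = τ y` then `v = y`, excluded), so
onto it by cardinality.
(3) For every `i : Ix I`: `g i ∈ X₀ ↔ f i ∈ X₀`. If `g i ∈ X₀` then `g i ≠ e` (`g` misses `y, w`), so
`f i = τ (g i) ∈ X₀`. If `f i ∈ X₀` then `f i ≠ x`, so by (2) `f i = τ v`, `v ∈ X₀`, `v ≠ e`, so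
`v ≠ y, w` and `v ∉ I`, `v = g j`, `τ v = f j`, `j = i`, `g i = v ∈ X₀`.
(4) So `K = X₀ ∪ {i ∈ I : g i ∈ X₀}` is closed (`Cls f g K`). It contains `x` and `e`, not `e'`, and not
`z`: if `z ∈ X₀` then `z ≠ x`, by (2) `z = τ v` with `v ∈ X₀`, `v ≠ e`; but `z = τ w`, so `v = w`,
excluded.
(5) So `x` is not linked to `z` and not to `e'`. Let `C = comp f g x` (closed by `cls_comp`): it
contains `x` but not `z`, so by `cnt` exactly one of `y, w`, which is `e`. Let `C' = comp f g z`: it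
contains `z`, not `x`, so exactly one of `y, w`; it is not `e` (else `x` would be linked to `z`), so
`e'`.
-/

set_option autoImplicit false
set_option linter.unusedSectionVars false

namespace Pool.Agent.Work.MP_0f7328_co.OC

open Finset TV MvPolynomial

variable {V : Type} [Fintype V] [DecidableEq V] {H : SimpleGraph V} {I : Finset V}

private theorem lkm_one (hI : Big H I) {x y z w : V} (hx : x ∉ I) (hy : y ∉ I) (hz : z ∉ I)
    (hw : w ∉ I) (hxz : x ≠ z) (hyw : y ≠ w) {f g : Ix I → V} (hf : IsMt H I x z f)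
    (hg : IsMt H I y w g) {C : Finset V} (hC : Cls f g C)
    (h : (x ∈ C ∧ z ∉ C) ∨ (z ∈ C ∧ x ∉ C)) : y ∈ C ∨ w ∈ C := by
  by_contra hcon
  rw [not_or] at hcon
  have h1 := cnt hI hx hy hz hw hxz hyw hf hg hC
  have h2 : C ∩ {y, w} = ∅ := by
    ext v
    simp only [Finset.mem_inter, Finset.mem_insert, Finset.mem_singleton, Finset.notMem_empty,
      iff_false, not_and, not_or]
    intro hv
    exact ⟨fun h3 => hcon.1 (h3 ▸ hv), fun h3 => hcon.2 (h3 ▸ hv)⟩
  rw [h2, Finset.card_empty, Finset.card_eq_zero] at h1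
  rcases h with h | h
  · have : x ∈ C ∩ {x, z} := by simp [h.1]
    rw [h1] at this
    exact absurd this (Finset.notMem_empty _)
  · have : z ∈ C ∩ {x, z} := by simp [h.1]
    rw [h1] at this
    exact absurd this (Finset.notMem_empty _)

private theorem lkm_set (hI : Big H I) {x y z w : V} (hx : x ∉ I) (hy : y ∉ I) (hz : z ∉ I)
    (hw : w ∉ I) (hxz : x ≠ z) (hyw : y ≠ w) {f g : Ix I → V} (hf : IsMt H I x z f)
    (hg : IsMt H I y w g) :
    ∃ K : Finset V, Cls f g K ∧ x ∈ K ∧ z ∉ K ∧ ((y ∈ K ∧ w ∉ K) ∨ (w ∈ K ∧ y ∉ K)) := by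
  classical
  have hex : ∀ b : V, ∃ c : V, (b ∈ I → c = b) ∧ (b = y → c = x) ∧ (b = w → c = z) ∧
      ∀ i, g i = b → c = f i := by
    intro b
    by_cases h1 : b ∈ I
    · refine ⟨b, fun _ => rfl, fun h => absurd (h ▸ h1) hy, fun h => absurd (h ▸ h1) hw, ?_⟩
      intro i hi
      exact absurd (hi ▸ h1) (mt_notMem hI hg i)
    · by_cases h2 : b = y
      · refine ⟨x, fun h => absurd h h1, fun _ => rfl, fun h => absurd (h2.symm.trans h) hyw, ?_⟩
        intro i hi
        exact absurd (hi.trans h2) (hg.2 i).2.1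
      · by_cases h3 : b = w
        · refine ⟨z, fun h => absurd h h1, fun h => absurd h h2, fun _ => rfl, ?_⟩
          intro i hi
          exact absurd (hi.trans h3) (hg.2 i).2.2
        · obtain ⟨j, hj⟩ := mt_surj hI hy hw hyw hg h1 h2 h3
          refine ⟨f j, fun h => absurd h h1, fun h => absurd h h2, fun h => absurd h h3, ?_⟩
          intro i hi
          rw [hg.1 (hi.trans hj.symm)]
  choose τ hτI hτy hτw hτg using hex
  have htau_y : τ y = x := hτy y rfl
  have htau_w : τ w = z := hτw w rfl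
  have htau_g : ∀ i, τ (g i) = f i := fun i => hτg (g i) i rfl
  have hcase : ∀ b : V, b ∈ I ∨ b = y ∨ b = w ∨ ∃ i, g i = b := by
    intro b
    by_cases h1 : b ∈ I
    · exact Or.inl h1
    · by_cases h2 : b = y
      · exact Or.inr (Or.inl h2)
      · by_cases h3 : b = w
        · exact Or.inr (Or.inr (Or.inl h3))
        · exact Or.inr (Or.inr (Or.inr (mt_surj hI hy hw hyw hg h1 h2 h3)))
  have hfI := fun i => mt_notMem hI hf i
  have hinj : Function.Injective τ := by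
    intro b b' hbb
    rcases hcase b with h | h | h | ⟨i, h⟩ <;> rcases hcase b' with h' | h' | h' | ⟨i', h'⟩
    · rw [hτI b h, hτI b' h'] at hbb
      exact hbb
    · rw [hτI b h, h', htau_y] at hbb
      exact absurd (hbb ▸ h) hx
    · rw [hτI b h, h', htau_w] at hbb
      exact absurd (hbb ▸ h) hz
    · rw [hτI b h, ← h', htau_g] at hbb
      exact absurd (hbb ▸ h) (hfI i')
    · rw [hτI b' h', h, htau_y] at hbb
      exact absurd (hbb ▸ h') hx
    · rw [h, h']
    · rw [h, h', htau_y, htau_w] at hbb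
      exact absurd hbb hxz
    · rw [h, ← h', htau_y, htau_g] at hbb
      exact absurd hbb.symm (hf.2 i').2.1
    · rw [hτI b' h', h, htau_w] at hbb
      exact absurd (hbb ▸ h') hz
    · rw [h, h', htau_y, htau_w] at hbb
      exact absurd hbb.symm hxz
    · rw [h, h']
    · rw [h, ← h', htau_w, htau_g] at hbb
      exact absurd hbb.symm (hf.2 i').2.2
    · rw [hτI b' h', ← h, htau_g] at hbb
      exact absurd (hbb ▸ h') (hfI i)
    · rw [← h, h', htau_y, htau_g] at hbb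
      exact absurd hbb (hf.2 i).2.1
    · rw [← h, h', htau_w, htau_g] at hbb
      exact absurd hbb (hf.2 i).2.2
    · rw [← h, ← h', htau_g, htau_g] at hbb
      rw [← h, ← h', hf.1 hbb]
  obtain ⟨X, e, hxX, heX, he, hX⟩ := hit τ hinj x y w htau_y
  have heI : e ∉ I := by
    rcases he with h | h
    · rw [h]
      exact hy
    · rw [h]
      exact hw
  let X₀ : Finset V := X.filter (fun v => v ∉ I)
  have hm0 : ∀ v, v ∈ X₀ ↔ v ∈ X ∧ v ∉ I := fun v => Finset.mem_filter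
  have hstep : ∀ v ∈ X₀, v ≠ e → ∃ i, g i = v ∧ f i ∈ X₀ := by
    intro v hv hve
    obtain ⟨h1, h2⟩ := (hm0 v).1 hv
    obtain ⟨h3, h4, h5⟩ := hX v h1 hve
    rcases hcase v with h | h | h | ⟨i, h⟩
    · exact absurd h h2
    · exact absurd h h3
    · exact absurd h h4
    · refine ⟨i, h, (hm0 _).2 ⟨?_, hfI i⟩⟩
      rw [← h, htau_g] at h5
      exact h5
  have himg : (X₀.erase e).image τ = X₀.erase x := by
    apply Finset.eq_of_subset_of_card_le
    · intro u hu
      obtain ⟨v, hv, rfl⟩ := Finset.mem_image.1 hu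
      obtain ⟨h1, h2⟩ := Finset.mem_erase.1 hv
      obtain ⟨i, hi, hfi⟩ := hstep v h2 h1
      rw [← hi, htau_g]
      exact Finset.mem_erase.2 ⟨(hf.2 i).2.1, hfi⟩
    · rw [Finset.card_image_of_injective _ hinj, Finset.card_erase_of_mem ((hm0 x).2 ⟨hxX, hx⟩),
        Finset.card_erase_of_mem ((hm0 e).2 ⟨heX, heI⟩)]
  have hiff : ∀ i, g i ∈ X₀ ↔ f i ∈ X₀ := by
    intro i
    constructor
    · intro h
      have hne : g i ≠ e := by
        rcases he with h1 | h1
        · rw [h1]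
          exact (hg.2 i).2.1
        · rw [h1]
          exact (hg.2 i).2.2
      obtain ⟨j, hj, hfj⟩ := hstep (g i) h hne
      rw [← hg.1 hj]
      exact hfj
    · intro h
      have h1 : f i ∈ X₀.erase x := Finset.mem_erase.2 ⟨(hf.2 i).2.1, h⟩
      rw [← himg] at h1
      obtain ⟨v, hv, hv2⟩ := Finset.mem_image.1 h1
      have h2 : v = g i := hinj (by rw [hv2, htau_g])
      rw [← h2]
      exact (Finset.mem_erase.1 hv).2
  let K : Finset V := Finset.univ.filter
    (fun v => (v ∉ I ∧ v ∈ X₀) ∨ ∃ i : Ix I, i.1 = v ∧ g i ∈ X₀)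
  have hKo : ∀ v, v ∉ I → (v ∈ K ↔ v ∈ X₀) := by
    intro v hv
    rw [Finset.mem_filter]
    constructor
    · rintro ⟨_, h | ⟨i, hi, _⟩⟩
      · exact h.2
      · exact absurd (hi ▸ i.2) hv
    · intro h
      exact ⟨Finset.mem_univ _, Or.inl ⟨hv, h⟩⟩
  have hKi : ∀ i : Ix I, (i.1 ∈ K ↔ g i ∈ X₀) := by
    intro i
    rw [Finset.mem_filter]
    constructor
    · rintro ⟨_, h | ⟨j, hj, hgj⟩⟩
      · exact absurd i.2 h.1
      · rw [← Subtype.ext hj]
        exact hgj
    · intro h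
      exact ⟨Finset.mem_univ _, Or.inr ⟨i, rfl, h⟩⟩
  refine ⟨K, ?_, ?_, ?_, ?_⟩
  · intro i
    refine ⟨?_, ?_⟩
    · rw [hKi, hKo _ (hfI i), hiff]
    · rw [hKi, hKo _ (mt_notMem hI hg i)]
  · rw [hKo x hx]
    exact (hm0 x).2 ⟨hxX, hx⟩
  · rw [hKo z hz]
    intro hzX
    have h1 : z ∈ X₀.erase x := Finset.mem_erase.2 ⟨hxz.symm, hzX⟩
    rw [← himg] at h1
    obtain ⟨v, hv, hv2⟩ := Finset.mem_image.1 h1
    obtain ⟨h2, h3⟩ := Finset.mem_erase.1 hv
    obtain ⟨i, hi, _⟩ := hstep v h3 h2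
    rw [← hi, htau_g] at hv2
    exact (hf.2 i).2.2 hv2
  · rcases he with h | h
    · left
      refine ⟨?_, ?_⟩
      · rw [hKo y hy, ← h]
        exact (hm0 e).2 ⟨heX, heI⟩
      · rw [hKo w hw]
        intro h1
        have h2 := hX w ((hm0 w).1 h1).1 (by rw [h]; exact hyw.symm)
        exact h2.2.1 rfl
    · right
      refine ⟨?_, ?_⟩
      · rw [hKo w hw, ← h]
        exact (hm0 e).2 ⟨heX, heI⟩
      · rw [hKo y hy]
        intro h1
        have h2 := hX y ((hm0 y).1 h1).1 (by rw [h]; exact hyw)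
        exact h2.1 rfl

theorem lk_main (hI : Big H I) {x y z w : V} (hx : x ∉ I) (hy : y ∉ I) (hz : z ∉ I)
    (hw : w ∉ I) (hxy : x ≠ y) (hxz : x ≠ z) (hxw : x ≠ w) (hyz : y ≠ z) (hyw : y ≠ w)
    (hzw : z ≠ w) {f g : Ix I → V} (hf : IsMt H I x z f) (hg : IsMt H I y w g) :
    ¬ Lk f g x z ∧ ((Lk f g x y ∧ Lk f g z w ∧ ¬ Lk f g x w) ∨
      (Lk f g x w ∧ Lk f g z y ∧ ¬ Lk f g x y)) := by
  obtain ⟨K, hK, hxK, hzK, hcase⟩ := lkm_set hI hx hy hz hw hxz hyw hf hg
  have hnxz : ¬ Lk f g x z := fun h => hzK ((h K hK).1 hxK)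
  have h1 := lkm_one hI hx hy hz hw hxz hyw hf hg (cls_comp f g x)
    (Or.inl ⟨mem_comp.2 (Lk.refl f g x), fun h => hnxz (mem_comp.1 h)⟩)
  have h2 := lkm_one hI hx hy hz hw hxz hyw hf hg (cls_comp f g z)
    (Or.inr ⟨mem_comp.2 (Lk.refl f g z), fun h => hnxz (mem_comp.1 h).symm⟩)
  rw [mem_comp, mem_comp] at h1 h2
  refine ⟨hnxz, ?_⟩
  rcases hcase with ⟨hyK, hwK⟩ | ⟨hwK, hyK⟩
  · left
    have hnxw : ¬ Lk f g x w := fun h => hwK ((h K hK).1 hxK)
    have hxy' : Lk f g x y := h1.resolve_right hnxw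
    refine ⟨hxy', ?_, hnxw⟩
    rcases h2 with h2 | h2
    · exact absurd (hxy'.trans h2.symm) hnxz
    · exact h2
  · right
    have hnxy : ¬ Lk f g x y := fun h => hyK ((h K hK).1 hxK)
    have hxw' : Lk f g x w := h1.resolve_left hnxy
    refine ⟨hxw', ?_, hnxy⟩
    rcases h2 with h2 | h2
    · exact h2
    · exact absurd (hxw'.trans h2.symm) hnxz

end Pool.Agent.Work.MP_0f7328_co.OC
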