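import Pool.Agent.Work.MP_0f7328_co.OC.CycE
import Pool.Agent.Work.MP_0f7328_co.TV.ThmA
import Pool.Agent.Work.MP_0f7328_co.TV.Bar2
import Pool.Agent.Work.MP_0f7328_co.TV.SplT

/-!
Stable sets of size `|V| / 2 - 1` in solid bricks.
-/

set_option autoImplicit false
set_option linter.unusedSectionVars false

namespace Pool.Agent.Work.MP_0f7328_co.OC

open Finset TV

variable {V : Type} [Fintype V] [DecidableEq V] {H : SimpleGraph V} {I : Finset V}

theorem sb_of_solid {E : Type} {G : MGraph V E} (hG : G.IsBrick) (hs : G.Solid) :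
    SB G.simple := by
  refine ⟨bicrit_of_brick hG, fun h => ?_, four_le hG⟩
  obtain ⟨τ, hτ⟩ := exists_pm hG.1
  exact (solid_iff G hG).1 hs (twoOdd_of_split h hτ)

theorem tri_stable (h : SB H) {a b c : V} (hab : H.Adj a b) (hbc : H.Adj b c) (hac : H.Adj a c) :
    ∃ I : Finset V, Stable H I ∧ 2 * I.card + 2 = Fintype.card V ∧ a ∉ I ∧ b ∉ I ∧ c ∉ I ∧
      ∀ v, v ≠ a → v ≠ b → v ≠ c → ∀ x y, (minus H I).Adj v x → (minus H I).Adj v y → x = y := by
  obtain ⟨I, hI, ha, hb, hc⟩ := thmA h hab hbc hac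
  refine ⟨I, hI.1, hI.2, ha, hb, hc, fun v va vb vc x y hx hy => ?_⟩
  by_contra hxy
  have ha' : a ∉ insert v I := by rw [mem_insert, not_or]; exact ⟨va.symm, ha⟩
  have hb' : b ∉ insert v I := by rw [mem_insert, not_or]; exact ⟨vb.symm, hb⟩
  have hc' : c ∉ insert v I := by rw [mem_insert, not_or]; exact ⟨vc.symm, hc⟩
  have e1 : (minus H (insert v I)).Adj a b := ⟨hab, ha', hb'⟩
  have e2 : (minus H (insert v I)).Adj b c := ⟨hbc, hb', hc'⟩
  have e3 : (minus H (insert v I)).Adj c a := ⟨hac.symm, hc', ha'⟩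
  have := r2 h hI hx.2.1 hx.2.2 hy.2.2 hx.1 hy.1 hxy (.cons e1 (.cons e2 (.cons e3 .nil)))
  revert this
  simp only [SimpleGraph.Walk.length_cons, SimpleGraph.Walk.length_nil]
  decide

theorem one_cycle (h : SB H) (hI : Stable H I) (hc : 2 * I.card + 2 = Fintype.card V) :
    (∀ z (c : (minus H I).Walk z z), c.IsCycle → Odd c.length ∧
      ∀ v, v ∉ c.support → ∀ x y, (minus H I).Adj v x → (minus H I).Adj v y → x = y) ∧
    ∀ z w (c : (minus H I).Walk z z) (d : (minus H I).Walk w w), c.IsCycle → d.IsCycle →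
      ∀ e, e ∈ c.edges ↔ e ∈ d.edges := by
  have hI' : Big H I := ⟨hI, hc⟩
  refine ⟨fun z c hcyc => ⟨cyc_odd h hI' c hcyc, fun v hv x y hx hy => ?_⟩,
    fun z w c d h1 h2 e => cyc_unique h hI' c h1 d h2 e⟩
  by_contra hxy
  exact hv (cyc_mem h hI' c hcyc hx hy hxy)

end Pool.Agent.Work.MP_0f7328_co.OC
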