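import Pool.Agent.Work.MP_0f7328_co.OC.LkM

/-!
The product of two generating polynomials, and a symmetry.

Proof of `nn_sum`: `pp x z * pp y w` is the sum over `f ∈ Mt x z`, `g ∈ Mt y w` of
`monomial (mon f + mon g) 1` (`Finset.sum_mul_sum`, `monomial_mul`). By `lk_main` for each pair
exactly one of `Lk x y`, `Lk x w` holds, so the summand is the sum of the summands of
`NN x y z w` and of `NN x w z y`; in the latter the sum over `Mt w y = Mt y w` (`Mt_comm`).
Proof of `nn_symm`: `NN z w x y` is a sum over `f ∈ Mt z x = Mt x z`, `g ∈ Mt w y = Mt y w` with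
condition `Lk f g z w`; by `lk_main` (for `x y z w`) this is equivalent to `Lk f g x y`.
Proof of `nn_flip`: `NN y x w z` is a sum over `f ∈ Mt y w`, `g ∈ Mt x z` with condition
`Lk f g y x`; exchange the two sums (`Finset.sum_comm`), `mon f + mon g` is commutative, and
`Lk f g y x ↔ Lk g f x y` (`Lk.swap`, `Lk.symm`).
-/

set_option autoImplicit false
set_option linter.unusedSectionVars false

namespace Pool.Agent.Work.MP_0f7328_co.OC

open Finset TV MvPolynomial

variable {V : Type} [Fintype V] [DecidableEq V] {H : SimpleGraph V} {I : Finset V}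

theorem nn_sum (hI : Big H I) {x y z w : V} (hx : x ∉ I) (hy : y ∉ I) (hz : z ∉ I)
    (hw : w ∉ I) (hxy : x ≠ y) (hxz : x ≠ z) (hxw : x ≠ w) (hyz : y ≠ z) (hyw : y ≠ w)
    (hzw : z ≠ w) : pp H I x z * pp H I y w = NN H I x y z w + NN H I x w z y := by
  classical
  unfold pp NN
  rw [Finset.sum_mul_sum, Mt_comm w y, ← Finset.sum_add_distrib]
  refine Finset.sum_congr rfl fun f hf => ?_
  rw [← Finset.sum_add_distrib]
  refine Finset.sum_congr rfl fun g hg => ?_
  rw [mem_Mt] at hf hg
  rw [monomial_mul, one_mul]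
  rcases (lk_main hI hx hy hz hw hxy hxz hxw hyz hyw hzw hf hg).2 with h | h
  · rw [if_pos h.1, if_neg h.2.2, add_zero]
  · rw [if_neg h.2.2, if_pos h.1, zero_add]

theorem nn_symm (hI : Big H I) {x y z w : V} (hx : x ∉ I) (hy : y ∉ I) (hz : z ∉ I)
    (hw : w ∉ I) (hxy : x ≠ y) (hxz : x ≠ z) (hxw : x ≠ w) (hyz : y ≠ z) (hyw : y ≠ w)
    (hzw : z ≠ w) : NN H I z w x y = NN H I x y z w := by
  classical
  unfold NN
  rw [Mt_comm z x, Mt_comm w y]
  refine Finset.sum_congr rfl fun f hf => Finset.sum_congr rfl fun g hg => ?_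
  rw [mem_Mt] at hf hg
  obtain ⟨h1, h | h⟩ := lk_main hI hx hy hz hw hxy hxz hxw hyz hyw hzw hf hg
  · rw [if_pos h.1, if_pos h.2.1]
  · have h2 : ¬ Lk f g z w := fun h3 => h1 (h.1.trans h3.symm)
    rw [if_neg h2, if_neg h.2.2]

theorem nn_flip (x y z w : V) : NN H I y x w z = NN H I x y z w := by
  classical
  unfold NN
  rw [Finset.sum_comm]
  refine Finset.sum_congr rfl fun f _ => Finset.sum_congr rfl fun g _ => ?_
  have h : Lk g f y x ↔ Lk f g x y := ⟨fun h => h.symm.swap, fun h => h.symm.swap⟩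
  rw [add_comm (mon g)]
  simp only [h]

end Pool.Agent.Work.MP_0f7328_co.OC
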