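import Pool.Agent.Work.MP_0f7328_co.OC.NSwap
import Pool.Agent.Work.MP_0f7328_co.OC.NSum

/-!
The polynomials `NN` in terms of the polynomials `pp`, and the relation for five vertices.

Proof of `two_nn`: `nn_sum` for the orders `(x, y, z, w)`, `(x, y, w, z)` and `(x, z, y, w)`:
`pp x z * pp y w = NN x y z w + NN x w z y`,
`pp x w * pp y z = NN x y w z + NN x z w y`,
`pp x y * pp z w = NN x z y w + NN x w y z`.
By `nn_swap`: `NN x y w z = NN x y z w`, `NN x w z y = NN x w y z`, `NN x z w y = NN x z y w`. So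
`pp x z * pp y w + pp x w * pp y z - pp x y * pp z w = 2 * NN x y z w` (`linear_combination`).
Proof of `five`: multiply by 2 and use `two_nn` four times (for `o u v w`, `o v z w`, `o v u z`,
`o u z w`) and `pp_comm`; both sides become the same polynomial in the `pp`. The ring
`MvPolynomial _ ℤ` has no zero divisors, so the factor 2 can be cancelled.
-/

set_option autoImplicit false
set_option linter.unusedSectionVars false

namespace Pool.Agent.Work.MP_0f7328_co.OC

open Finset TV MvPolynomial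

variable {V : Type} [Fintype V] [DecidableEq V] {H : SimpleGraph V} {I : Finset V}

theorem two_nn (hI : Big H I) {x y z w : V} (hx : x ∉ I) (hy : y ∉ I) (hz : z ∉ I)
    (hw : w ∉ I) (hxy : x ≠ y) (hxz : x ≠ z) (hxw : x ≠ w) (hyz : y ≠ z) (hyw : y ≠ w)
    (hzw : z ≠ w) : 2 * NN H I x y z w =
      pp H I x z * pp H I y w + pp H I x w * pp H I y z - pp H I x y * pp H I z w := by
  have h1 := nn_sum hI hx hy hz hw hxy hxz hxw hyz hyw hzw
  have h2 := nn_sum hI hx hy hw hz hxy hxw hxz hyw hyz hzw.symm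
  have h3 := nn_sum hI hx hz hy hw hxz hxy hxw hyz.symm hzw hyw
  have e1 := nn_swap hI hx hy hw hz hxy hxw hxz hyw hyz hzw.symm
  have e2 := nn_swap hI hx hw hz hy hxw hxz hxy hzw.symm hyw.symm hyz.symm
  have e3 := nn_swap hI hx hz hw hy hxz hxw hxy hzw hyz.symm hyw.symm
  linear_combination -h1 - h2 + h3 - e1 - e2 - e3

theorem five (hI : Big H I) {o u v z w : V} (ho : o ∉ I) (hu : u ∉ I) (hv : v ∉ I) (hz : z ∉ I)
    (hw : w ∉ I) (hou : o ≠ u) (hov : o ≠ v) (hoz : o ≠ z) (how : o ≠ w) (huv : u ≠ v)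
    (huz : u ≠ z) (huw : u ≠ w) (hvz : v ≠ z) (hvw : v ≠ w) (hzw : z ≠ w) :
    NN H I o u v w * pp H I o z + NN H I o v z w * pp H I o u =
      NN H I o v u z * pp H I o w + NN H I o u z w * pp H I o v := by
  have h1 := two_nn hI ho hu hv hw hou hov how huv huw hvw
  have h2 := two_nn hI ho hv hz hw hov hoz how hvz hvw hzw
  have h3 := two_nn hI ho hv hu hz hov hou hoz huv.symm hvz huz
  have h4 := two_nn hI ho hu hz hw hou hoz how huz huw hzw
  have c : pp H I v u = pp H I u v := pp_comm v u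
  rw [c] at h3
  have h2' : (2 : MvPolynomial (Ix I × V) ℤ) ≠ 0 := two_ne_zero
  refine mul_left_cancel₀ h2' ?_
  linear_combination (pp H I o z) * h1 + (pp H I o u) * h2 - (pp H I o w) * h3
    - (pp H I o v) * h4

end Pool.Agent.Work.MP_0f7328_co.OC
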