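import Pool.Agent.Work.MP_0f7328_co.OC.Defs

/-!
Interchanging `f` and `g` on the component `C = comp f g z` of `z`.

Proof. `C` is closed (`cls_comp`). `swf C f g i` is `g i` for `i ∈ C` and `f i` otherwise
(`swf_mem`, `swf_notMem`). By closedness `swf C f g i ∈ C ↔ i ∈ C`.
`swt_left`: injective: if `swf C f g i = swf C f g j` then `i, j` are both in `C` or both outside, and
`g`, resp. `f`, is injective. Adjacency is clear. It is not `x`: for `i ∉ C` because `f` misses `x`,
for `i ∈ C` because the value is in `C` and `x ∉ C` (`h1`). It is not `w`: for `i ∈ C` because `g`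
misses `w`, for `i ∉ C` because the value is not in `C` but `w ∈ C` (`h2`).
`swt_right` is the same: `swf C g f i` is `f i` for `i ∈ C`, `g i` otherwise. It is not `y` (`y ∉ C` by
`h3`) and not `z` (`z ∈ C`, `Lk.refl`; for `i ∈ C`, `f` misses `z`).
`swt_lk`: for every set `D`, `Cls (swf C f g) (swf C g f) D ↔ Cls f g D` (for each `i` the pair of
values is the same up to order).
`swt_mon`: `mon` is a sum over `i` of `single (i, f i) 1`; compare the summands.
`swt_swt`: pointwise.
-/

set_option autoImplicit false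
set_option linter.unusedSectionVars false

namespace Pool.Agent.Work.MP_0f7328_co.OC

open Finset TV MvPolynomial

variable {V : Type} [Fintype V] [DecidableEq V] {H : SimpleGraph V} {I : Finset V}

private theorem swt_inj {f g : Ix I → V} {C : Finset V} (hC : Cls f g C)
    (hf : Function.Injective f) (hg : Function.Injective g) :
    Function.Injective (swf C f g) := by
  intro i j hij
  by_cases hi : i.1 ∈ C
  · by_cases hj : j.1 ∈ C
    · rw [swf_mem hi, swf_mem hj] at hij
      exact hg hij
    · rw [swf_mem hi, swf_notMem hj] at hij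
      exact absurd ((hC j).1.2 (hij ▸ (hC i).2.1 hi)) hj
  · by_cases hj : j.1 ∈ C
    · rw [swf_notMem hi, swf_mem hj] at hij
      exact absurd ((hC i).1.2 (hij ▸ (hC j).2.1 hj)) hi
    · rw [swf_notMem hi, swf_notMem hj] at hij
      exact hf hij

theorem swt_left {x y z w : V} {f g : Ix I → V} (hf : IsMt H I x z f) (hg : IsMt H I y w g)
    (h1 : ¬ Lk f g z x) (h2 : Lk f g z w) :
    IsMt H I x w (swf (comp f g z) f g) := by
  have hC := cls_comp f g z
  have hx : x ∉ comp f g z := fun h => h1 (mem_comp.1 h)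
  have hw : w ∈ comp f g z := mem_comp.2 h2
  refine ⟨swt_inj hC hf.1 hg.1, fun i => ?_⟩
  by_cases hi : i.1 ∈ comp f g z
  · rw [swf_mem hi]
    exact ⟨(hg.2 i).1, fun h => hx (h ▸ (hC i).2.1 hi), (hg.2 i).2.2⟩
  · rw [swf_notMem hi]
    exact ⟨(hf.2 i).1, (hf.2 i).2.1, fun h => hi ((hC i).1.2 (h ▸ hw))⟩

theorem swt_right {x y z w : V} {f g : Ix I → V} (hf : IsMt H I x z f) (hg : IsMt H I y w g)
    (h3 : ¬ Lk f g z y) : IsMt H I y z (swf (comp f g z) g f) := by
  have hC := cls_comp f g z
  have hy : y ∉ comp f g z := fun h => h3 (mem_comp.1 h)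
  have hz : z ∈ comp f g z := mem_comp.2 (Lk.refl f g z)
  refine ⟨swt_inj hC.symm hg.1 hf.1, fun i => ?_⟩
  by_cases hi : i.1 ∈ comp f g z
  · rw [swf_mem hi]
    exact ⟨(hf.2 i).1, fun h => hy (h ▸ (hC i).1.1 hi), (hf.2 i).2.2⟩
  · rw [swf_notMem hi]
    exact ⟨(hg.2 i).1, (hg.2 i).2.1, fun h => hi ((hC i).2.2 (h ▸ hz))⟩

theorem swt_lk (C : Finset V) (f g : Ix I → V) (a b : V) :
    Lk (swf C f g) (swf C g f) a b ↔ Lk f g a b := by
  have h : ∀ D : Finset V, Cls (swf C f g) (swf C g f) D ↔ Cls f g D := by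
    intro D
    refine forall_congr' fun i => ?_
    by_cases hi : i.1 ∈ C
    · rw [swf_mem hi, swf_mem hi]
      exact and_comm
    · rw [swf_notMem hi, swf_notMem hi]
  exact ⟨fun h1 D hD => h1 D ((h D).2 hD), fun h1 D hD => h1 D ((h D).1 hD)⟩

theorem swt_mon (C : Finset V) (f g : Ix I → V) :
    mon (swf C f g) + mon (swf C g f) = mon f + mon g := by
  unfold mon
  rw [← Finset.sum_add_distrib, ← Finset.sum_add_distrib]
  refine Finset.sum_congr rfl fun i _ => ?_
  by_cases hi : i.1 ∈ C
  · rw [swf_mem hi, swf_mem hi, add_comm]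
  · rw [swf_notMem hi, swf_notMem hi]

theorem swt_swt (C : Finset V) (f g : Ix I → V) :
    swf C (swf C f g) (swf C g f) = f ∧ swf C (swf C g f) (swf C f g) = g := by
  constructor
  · funext i
    by_cases hi : i.1 ∈ C
    · rw [swf_mem hi, swf_mem hi]
    · rw [swf_notMem hi, swf_notMem hi]
  · funext i
    by_cases hi : i.1 ∈ C
    · rw [swf_mem hi, swf_mem hi]
    · rw [swf_notMem hi, swf_notMem hi]

end Pool.Agent.Work.MP_0f7328_co.OC
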