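import Pool.Agent.Work.MP_0f7328_co.OC.LkM
import Pool.Agent.Work.MP_0f7328_co.OC.Swt

/-!
Interchange along the path from `z` to `w`.

Proof. Both sides are sums over pairs: the left one over `(f, g)` in `Mt x z` times `Mt y w` with
`Lk f g x y`, the right one over `(f', g')` in `Mt x w` times `Mt y z` with `Lk f' g' x y`, of
`monomial (mon f + mon g) 1`. Write them as sums over filtered products (`Finset.sum_product'`,
`Finset.sum_filter`) and use `Finset.sum_bij'` with the map
`(f, g) ↦ (swf C f g, swf C g f)`, `C = comp f g z`. By `lk_main`, for `(f, g)` on the left: `z` is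
linked to `w`, not to `x` and not to `y` (`Lk x y`, `¬ Lk x z`), so `swt_left`, `swt_right` give that
the image is on the right, with `Lk` unchanged by `swt_lk`, and the monomial is unchanged by
`swt_mon`. The inverse map is the same map with `C' = comp f' g' w`: for `(f', g')` on the right,
`lk_main` (with `f'` missing `x, w` and `g'` missing `y, z`) says `w` is linked to `z`. As `Lk` is
the same relation for `(f, g)` and its image (`swt_lk`), and `z` is linked to `w`, both components
are the same set, and `swt_swt` gives that the maps are inverse to each other.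
-/

set_option autoImplicit false
set_option linter.unusedSectionVars false

namespace Pool.Agent.Work.MP_0f7328_co.OC

open Finset TV MvPolynomial

variable {V : Type} [Fintype V] [DecidableEq V] {H : SimpleGraph V} {I : Finset V}

private theorem nswap_comp (C : Finset V) (f g : Ix I → V) (a : V) :
    comp (swf C f g) (swf C g f) a = comp f g a := by
  ext b
  rw [mem_comp, mem_comp, swt_lk]

private theorem nswap_eq {f g : Ix I → V} {a b : V} (h : Lk f g a b) :
    comp f g a = comp f g b := by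
  ext c
  rw [mem_comp, mem_comp]
  exact ⟨fun h' => h.symm.trans h', fun h' => h.trans h'⟩

open Classical in
private theorem nswap_sum (x y z w : V) : NN H I x y z w =
    ∑ p ∈ (Mt H I x z ×ˢ Mt H I y w).filter (fun p => Lk p.1 p.2 x y),
      monomial (mon p.1 + mon p.2) (1 : ℤ) := by
  unfold NN
  rw [Finset.sum_filter, Finset.sum_product]

private theorem nswap_aux (hI : Big H I) {x y z w : V} (hx : x ∉ I) (hy : y ∉ I) (hz : z ∉ I)
    (hw : w ∉ I) (hxy : x ≠ y) (hxz : x ≠ z) (hxw : x ≠ w) (hyz : y ≠ z) (hyw : y ≠ w)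
    (hzw : z ≠ w) {f g : Ix I → V} (hf : IsMt H I x z f) (hg : IsMt H I y w g)
    (hl : Lk f g x y) :
    IsMt H I x w (swf (comp f g z) f g) ∧ IsMt H I y z (swf (comp f g z) g f) ∧
      Lk (swf (comp f g z) f g) (swf (comp f g z) g f) x y ∧ Lk f g z w := by
  obtain ⟨h1, h2⟩ := lk_main hI hx hy hz hw hxy hxz hxw hyz hyw hzw hf hg
  have h3 : Lk f g z w := by
    rcases h2 with h2 | h2
    · exact h2.2.1
    · exact absurd hl h2.2.2
  have h4 : ¬ Lk f g z x := fun h => h1 h.symm
  have h5 : ¬ Lk f g z y := fun h => h1 (hl.trans h.symm)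
  exact ⟨swt_left hf hg h4 h3, swt_right hf hg h5, (swt_lk _ f g x y).2 hl, h3⟩

theorem nn_swap (hI : Big H I) {x y z w : V} (hx : x ∉ I) (hy : y ∉ I) (hz : z ∉ I)
    (hw : w ∉ I) (hxy : x ≠ y) (hxz : x ≠ z) (hxw : x ≠ w) (hyz : y ≠ z) (hyw : y ≠ w)
    (hzw : z ≠ w) : NN H I x y z w = NN H I x y w z := by
  classical
  rw [nswap_sum, nswap_sum]
  refine Finset.sum_bij'
    (fun p _ => (swf (comp p.1 p.2 z) p.1 p.2, swf (comp p.1 p.2 z) p.2 p.1))
    (fun p _ => (swf (comp p.1 p.2 w) p.1 p.2, swf (comp p.1 p.2 w) p.2 p.1))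
    ?_ ?_ ?_ ?_ ?_
  · rintro ⟨f, g⟩ hp
    rw [Finset.mem_filter, Finset.mem_product, mem_Mt, mem_Mt] at hp
    obtain ⟨h1, h2, h3, _⟩ := nswap_aux hI hx hy hz hw hxy hxz hxw hyz hyw hzw hp.1.1 hp.1.2 hp.2
    rw [Finset.mem_filter, Finset.mem_product, mem_Mt, mem_Mt]
    exact ⟨⟨h1, h2⟩, h3⟩
  · rintro ⟨f, g⟩ hp
    rw [Finset.mem_filter, Finset.mem_product, mem_Mt, mem_Mt] at hp
    obtain ⟨h1, h2, h3, _⟩ := nswap_aux hI hx hy hw hz hxy hxw hxz hyw hyz hzw.symm
      hp.1.1 hp.1.2 hp.2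
    rw [Finset.mem_filter, Finset.mem_product, mem_Mt, mem_Mt]
    exact ⟨⟨h1, h2⟩, h3⟩
  · rintro ⟨f, g⟩ hp
    rw [Finset.mem_filter, Finset.mem_product, mem_Mt, mem_Mt] at hp
    obtain ⟨_, _, _, h4⟩ := nswap_aux hI hx hy hz hw hxy hxz hxw hyz hyw hzw hp.1.1 hp.1.2 hp.2
    have h4' : Lk f g z w := h4
    have h5 := swt_swt (comp f g z) f g
    simp only
    rw [nswap_comp, ← nswap_eq h4']
    exact Prod.ext h5.1 h5.2
  · rintro ⟨f, g⟩ hp
    rw [Finset.mem_filter, Finset.mem_product, mem_Mt, mem_Mt] at hp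
    obtain ⟨_, _, _, h4⟩ := nswap_aux hI hx hy hw hz hxy hxw hxz hyw hyz hzw.symm
      hp.1.1 hp.1.2 hp.2
    have h4' : Lk f g w z := h4
    have h5 := swt_swt (comp f g w) f g
    simp only
    rw [nswap_comp, ← nswap_eq h4']
    exact Prod.ext h5.1 h5.2
  · rintro ⟨f, g⟩ _
    simp only
    rw [swt_mon]

end Pool.Agent.Work.MP_0f7328_co.OC
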