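import Pool.Agent.Work.MP_0f7328_co.OC.NAlg
import Pool.Agent.Work.MP_0f7328_co.OC.PNe
import Pool.Agent.Work.MP_0f7328_co.OC.Zer
import Pool.Agent.Work.MP_0f7328_co.OC.NZero

/-!
Labels. Let `o` have two neighbours `u ≠ v` outside of `I`. A vertex `z ≠ o, u, v` outside of `I` has
label `true` if `NN o u v z = 0` and label `false` if `NN o v u z = 0`; `u` has the label `true`, `v`
the label `false`.

Proof of `lab_not`: for `z = u` or `z = v` clear. Otherwise `zer` for `(o, u, v, z)`:
`NN o u v z = 0` and `NN o v u z = 0` is impossible.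
Proof of `lab_step`, by cases.
(1) `z, w` both different from `u, v`. `five` for `o u v z w`:
`NN o u v w * pp o z + NN o v z w * pp o u = NN o v u z * pp o w + NN o u z w * pp o v`. The edges
`o v`, `z w` are disjoint and so are `o u`, `z w`, so `NN o v z w = 0` and `NN o u z w = 0` by
`nn_zero`. Hence `NN o u v w * pp o z = NN o v u z * pp o w`. If `z` has label `false` then
`NN o u v w * pp o z = 0` and `NN o u v w = 0` as `pp o z ≠ 0` (`pp_ne`): `w` has label `true`. With
`u` and `v` exchanged: if `z` has label `true` then `w` has label `false`.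
(2) `w ≠ u, v` adjacent to `u`: the edges `o v` and `u w` are disjoint, so `NN o v u w = 0` by
`nn_zero`: `w` has label `false`. In the same way `w ≠ u, v` adjacent to `v` has label `true`
(`NN o u v w = 0`, edges `o u`, `v w`).
(3) `z = u`: then `b = true`. If `w = v` it has label `false`; otherwise use (2). `z = v`: the same.
(4) `w = u`, `z ≠ u, v`: by (2) `z` has the label `false`, so by `lab_not` `b` is not `true`, so
`b = false` and `u` has the label `true = !b`. `w = v` is the same.
-/

set_option autoImplicit false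
set_option linter.unusedSectionVars false

namespace Pool.Agent.Work.MP_0f7328_co.OC

open Finset TV MvPolynomial

variable {V : Type} [Fintype V] [DecidableEq V] {H : SimpleGraph V} {I : Finset V}

private theorem lab_u {o u v : V} {b : Bool} : Lab H I o u v b u ↔ b = true := by
  unfold Lab
  rw [if_pos rfl]

private theorem lab_v {o u v : V} (huv : u ≠ v) {b : Bool} : Lab H I o u v b v ↔ b = false := by
  unfold Lab
  rw [if_neg huv.symm, if_pos rfl]

private theorem lab_t {o u v z : V} (hu : z ≠ u) (hv : z ≠ v) :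
    Lab H I o u v true z ↔ NN H I o u v z = 0 := by
  unfold Lab
  rw [if_neg hu, if_neg hv, if_pos rfl]

private theorem lab_f {o u v z : V} (hu : z ≠ u) (hv : z ≠ v) :
    Lab H I o u v false z ↔ NN H I o v u z = 0 := by
  unfold Lab
  rw [if_neg hu, if_neg hv, if_neg (by decide)]

theorem lab_not (h : SB H) (hI : Big H I) {o u v : V} (ho : o ∉ I) (hu : u ∉ I) (hv : v ∉ I)
    (hou : H.Adj o u) (hov : H.Adj o v) (huv : u ≠ v) {z : V} (hz : z ∉ I) (hzo : z ≠ o)
    (h1 : Lab H I o u v true z) (h2 : Lab H I o u v false z) : False := by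
  by_cases hzu : z = u
  · rw [hzu, lab_u] at h2
    exact absurd h2 (by decide)
  by_cases hzv : z = v
  · rw [hzv, lab_v huv] at h1
    exact absurd h1 (by decide)
  rw [lab_t hzu hzv] at h1
  rw [lab_f hzu hzv] at h2
  exact zer h hI ho hu hv hz hou.ne hov.ne hzo.symm huv (Ne.symm hzu) (Ne.symm hzv) h1 h2

private theorem stp_a (h : SB H) (hI : Big H I) {o u v : V} (ho : o ∉ I) (hu : u ∉ I)
    (hv : v ∉ I) (hou : H.Adj o u) (hov : H.Adj o v) (huv : u ≠ v) {w : V} (hw : w ∉ I)
    (hwo : w ≠ o) (hwv : w ≠ v) (huw : H.Adj u w) : Lab H I o u v false w := by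
  rw [lab_f huw.ne' hwv]
  exact nn_zero h hI ho hv hu hw hou.ne hwo.symm huv.symm (Ne.symm hwv) hov huw

private theorem stp_b (h : SB H) (hI : Big H I) {o u v : V} (ho : o ∉ I) (hu : u ∉ I)
    (hv : v ∉ I) (hou : H.Adj o u) (hov : H.Adj o v) (huv : u ≠ v) {w : V} (hw : w ∉ I)
    (hwo : w ≠ o) (hwu : w ≠ u) (hvw : H.Adj v w) : Lab H I o u v true w := by
  rw [lab_t hwu hvw.ne']
  exact nn_zero h hI ho hu hv hw hov.ne hwo.symm huv (Ne.symm hwu) hou hvw

theorem lab_step (h : SB H) (hI : Big H I) {o u v : V} (ho : o ∉ I) (hu : u ∉ I) (hv : v ∉ I)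
    (hou : H.Adj o u) (hov : H.Adj o v) (huv : u ≠ v) {z w : V} {b : Bool}
    (hzw : (minus H (insert o I)).Adj z w) (h1 : Lab H I o u v b z) :
    Lab H I o u v (!b) w := by
  obtain ⟨hzw, hz', hw'⟩ := hzw
  rw [mem_insert, not_or] at hz' hw'
  obtain ⟨hzo, hz⟩ := hz'
  obtain ⟨hwo, hw⟩ := hw'
  by_cases hzu : z = u
  · rw [hzu, lab_u] at h1
    rw [hzu] at hzw
    rw [h1]
    by_cases hwv : w = v
    · rw [hwv, lab_v huv]
      rfl
    · exact stp_a h hI ho hu hv hou hov huv hw hwo hwv hzw
  by_cases hzv : z = v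
  · rw [hzv, lab_v huv] at h1
    rw [hzv] at hzw
    rw [h1]
    by_cases hwu : w = u
    · rw [hwu, lab_u]
      rfl
    · exact stp_b h hI ho hu hv hou hov huv hw hwo hwu hzw
  by_cases hwu : w = u
  · rw [hwu] at hzw
    have h2 := stp_a h hI ho hu hv hou hov huv hz hzo hzv hzw.symm
    cases b with
    | false =>
      rw [hwu, lab_u]
      rfl
    | true => exact (lab_not h hI ho hu hv hou hov huv hz hzo h1 h2).elim
  by_cases hwv : w = v
  · rw [hwv] at hzw
    have h2 := stp_b h hI ho hu hv hou hov huv hz hzo hzu hzw.symm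
    cases b with
    | true =>
      rw [hwv, lab_v huv]
      rfl
    | false => exact (lab_not h hI ho hu hv hou hov huv hz hzo h2 h1).elim
  have e1 : NN H I o v z w = 0 := nn_zero h hI ho hv hz hw (Ne.symm hzo) (Ne.symm hwo)
    (Ne.symm hzv) (Ne.symm hwv) hov hzw
  have e2 : NN H I o u z w = 0 := nn_zero h hI ho hu hz hw (Ne.symm hzo) (Ne.symm hwo)
    (Ne.symm hzu) (Ne.symm hwu) hou hzw
  have hp : pp H I o z ≠ 0 := pp_ne h hI ho hz (Ne.symm hzo)
  cases b with
  | false =>
    rw [lab_f hzu hzv] at h1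
    show Lab H I o u v true w
    rw [lab_t hwu hwv]
    have h5 := five hI ho hu hv hz hw hou.ne hov.ne (Ne.symm hzo) (Ne.symm hwo) huv
      (Ne.symm hzu) (Ne.symm hwu) (Ne.symm hzv) (Ne.symm hwv) hzw.ne
    rw [e1, e2, h1, zero_mul, zero_mul, zero_mul, add_zero, add_zero] at h5
    exact (mul_eq_zero.1 h5).resolve_right hp
  | true =>
    rw [lab_t hzu hzv] at h1
    show Lab H I o u v false w
    rw [lab_f hwu hwv]
    have h5 := five hI ho hv hu hz hw hov.ne hou.ne (Ne.symm hzo) (Ne.symm hwo) huv.symm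
      (Ne.symm hzv) (Ne.symm hwv) (Ne.symm hzu) (Ne.symm hwu) hzw.ne
    rw [e1, e2, h1, zero_mul, zero_mul, zero_mul, add_zero, add_zero] at h5
    exact (mul_eq_zero.1 h5).resolve_right hp

end Pool.Agent.Work.MP_0f7328_co.OC
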