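import Pool.Agent.Work.MP_0f7328_co.OC.Stp

/-!
Labels along walks that avoid `o`.

Proof of `lab_walk`: induction on the walk, `lab_step` for the first edge
(`decide (Odd (n + 1)) = !decide (Odd n)`).
Proof of `r1`: `u` has the label `true` (definition of `Lab`), so `v` has the label
`xor true (decide (Odd p.length))`; the label of `v` can only be `false` (definition of `Lab`, `v ≠ u`),
so `p.length` is odd.
-/

set_option autoImplicit false
set_option linter.unusedSectionVars false

namespace Pool.Agent.Work.MP_0f7328_co.OC

open Finset TV MvPolynomial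

variable {V : Type} [Fintype V] [DecidableEq V] {H : SimpleGraph V} {I : Finset V}

theorem lab_walk (h : SB H) (hI : Big H I) {o u v : V} (ho : o ∉ I) (hu : u ∉ I) (hv : v ∉ I)
    (hou : H.Adj o u) (hov : H.Adj o v) (huv : u ≠ v) {z w : V} {b : Bool}
    (p : (minus H (insert o I)).Walk z w) (h1 : Lab H I o u v b z) :
    Lab H I o u v (xor b (decide (Odd p.length))) w := by
  induction p generalizing b with
  | nil => simpa using h1
  | @cons z z' w hz q ih =>
    have h2 := ih (lab_step h hI ho hu hv hou hov huv hz h1)
    have h3 : xor b (decide (Odd (SimpleGraph.Walk.cons hz q).length))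
        = xor (!b) (decide (Odd q.length)) := by
      rw [SimpleGraph.Walk.length_cons]
      by_cases hq : Odd q.length
      · have h4 : ¬ Odd (q.length + 1) := by
          rw [Nat.not_odd_iff_even]
          exact hq.add_one
        simp [hq, h4]
      · have h4 : Odd (q.length + 1) := (Nat.not_odd_iff_even.mp hq).add_one
        simp [hq, h4]
    rw [h3]
    exact h2

theorem r1 (h : SB H) (hI : Big H I) {o u v : V} (ho : o ∉ I) (hu : u ∉ I) (hv : v ∉ I)
    (hou : H.Adj o u) (hov : H.Adj o v) (huv : u ≠ v)
    (p : (minus H (insert o I)).Walk u v) : Odd p.length := by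
  have h1 : Lab H I o u v true u := by
    unfold Lab
    rw [if_pos rfl]
  have h2 := lab_walk h hI ho hu hv hou hov huv p h1
  unfold Lab at h2
  rw [if_neg (Ne.symm huv), if_pos rfl] at h2
  by_contra hodd
  simp [hodd] at h2

end Pool.Agent.Work.MP_0f7328_co.OC
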